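import Mathlib

/-!
# Spiders: definitions

A leg of a spider is given by the list `w` of its labels, starting at the neighbour of the hub; the hub has the
label `c`, so that the edge differences of the leg are the differences of consecutive entries of `c :: w`.
-/

set_option autoImplicit false

namespace Pool.Agent.TH56.GT

/-- `d` is the distance of two consecutive entries of `w` -/
def Df (w : List ℕ) (d : ℕ) : Prop := ∃ a b : ℕ, [a, b] <:+: w ∧ (a + d = b ∨ b + d = a)

/-- one of the two labels is smaller than `p`, the other one is not -/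
def Alt (p a b : ℕ) : Prop := (a < p ∧ p ≤ b) ∨ (b < p ∧ p ≤ a)

/-- the hub label `c` and the legs `ws` use all the labels `0, …, m` and all the differences `1, …, m` -/
def Cov (c m : ℕ) (ws : List (List ℕ)) : Prop :=
  (∀ y ≤ m, y = c ∨ ∃ w ∈ ws, y ∈ w) ∧ (∀ d, 1 ≤ d → d ≤ m → ∃ w ∈ ws, Df (c :: w) d)

/-- graceful labelling of the spider with legs of lengths `ns`, the hub having the label `0` -/
def G0 (ns : List ℕ) : Prop := ∃ ws : List (List ℕ), (ws.map List.length).Perm ns ∧ Cov 0 ns.sum ws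

/-- the same with an `α`-labelling: there is a number `p` such that every edge joins a label `< p` and a
label `≥ p` -/
def A0 (ns : List ℕ) : Prop := ∃ (p : ℕ) (ws : List (List ℕ)), 1 ≤ p ∧ p ≤ ns.sum + 1 ∧
  (ws.map List.length).Perm ns ∧ Cov 0 ns.sum ws ∧ ∀ w ∈ ws, (0 :: w).IsChain (Alt p)

/-- block with `p` low labels `l, …, l+p-1` and `q` high labels `h-q+1, …, h`: a path starting at `e` which
uses all these labels and all the differences between `h-l+2-(p+q)` and `h-l` -/
def PB (l h p q e : ℕ) : Prop := ∃ w : List ℕ, w.length = p + q ∧ w.head? = some e ∧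
  (∀ y, l ≤ y → y < l + p → y ∈ w) ∧ (∀ y, h < y + q → y ≤ h → y ∈ w) ∧
  (∀ d, h + 1 < l + d + (p + q) → l + d ≤ h → Df w d) ∧
  w.IsChain (fun a b => (a < l + p ∧ h < b + q) ∨ (b < l + p ∧ h < a + q))

/-- the conclusion: `T` is graceful -/
def Graceful {V : Type} (T : SimpleGraph V) : Prop :=
  ∃ f : V → ℕ, Function.Injective f ∧ (∀ u, f u ≤ T.edgeSet.ncard) ∧
    {d : ℕ | ∃ u w : V, T.Adj u w ∧ d = Int.natAbs ((f u : ℤ) - (f w : ℤ))} =
      Set.Icc 1 T.edgeSet.ncard

/-! ### statements of the parts -/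

/-- the even block -/
def EvenStm : Prop := ∀ p x : ℕ, x < p → ∃ w : List ℕ, w.length = 2 * p ∧ w.head? = some x ∧
  w.getLast? = some (x + p) ∧ (∀ y < 2 * p, y ∈ w) ∧ (∀ d, 1 ≤ d → d < 2 * p → Df w d) ∧
  w.IsChain (Alt p)

/-- spiders: from lists of labels to a graceful labelling; `ns` is the list of the lengths of the legs -/
def GraphStm : Prop := ∀ (V : Type) [Fintype V] (T : SimpleGraph V), T.IsTree → ∀ v : V,
  (∀ x, x ≠ v → (T.neighborSet x).ncard ≤ 2) →
  ∃ ns : List ℕ, (∀ n ∈ ns, 1 ≤ n) ∧ ns.sum = T.edgeSet.ncard ∧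
    (ns.filter (fun n => 2 ≤ n)).length = {w : V | T.Adj v w ∧ (T.neighborSet w).ncard = 2}.ncard ∧
    ((∃ (c : ℕ) (ws : List (List ℕ)), (ws.map List.length).Perm ns ∧ Cov c ns.sum ws) → Graceful T)

end Pool.Agent.TH56.GT
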