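import Mathlib
import Pool.Agent.TH56.GT.Def
import Pool.Agent.W45.SP.GRAPH

/-!
# Spiders: from lists of labels (with the hub label `c`) to a graceful labelling
-/

set_option autoImplicit false

namespace Pool.Agent.TH56.GT.Gra

open Pool.Agent.TH56.GT
open Pool.Agent.W45.SP (Par anc leg rts mem_rts mem_leg dist_inj dist_image anc_mem anc_par
  par_eq_iff exists_W leg_two self_mem_leg dpos ne_of_dpos)
open Finset

theorem getD_infix (s t l : List ℕ) (a b : ℕ) (h : s ++ [a, b] ++ t = l) :
    l.getD s.length 0 = a ∧ l.getD (s.length + 1) 0 = b ∧ s.length + 2 ≤ l.length := by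
  subst h
  refine ⟨?_, ?_, ?_⟩
  · simp [List.getD_eq_getElem?_getD]
  · simp [List.getD_eq_getElem?_getD]
  · simp

theorem z_graph : GraphStm := by
  classical
  intro V _ T hT v hdeg
  obtain ⟨par, hp1, hp2⟩ := Pool.Agent.H115R2.exists_parent T hT v
  have h : Par T v par := ⟨hT, hT.connected, fun x hx => (hp1 x hx).1, fun x hx => (hp1 x hx).2, hp2, hdeg⟩
  set n : V → ℕ := fun r => (leg T v par r).card with hn
  set rs : List V := (rts T v).toList with hrs
  have hmem : ∀ r, r ∈ rs ↔ T.Adj v r := fun r => by rw [hrs, mem_toList, mem_rts]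
  have hedge := Pool.Agent.H115R2.ncard_edge T hT
  have hsum : (rs.map n).sum = T.edgeSet.ncard := by
    have h1 : (rs.map n).sum = ∑ r ∈ rts T v, n r := by
      rw [hrs, sum_map_toList]
    rw [h1]
    have h2 : ∑ r ∈ rts T v, n r = (univ.erase v).card := by
      rw [card_eq_sum_card_fiberwise (f := anc T v par) (t := rts T v)]
      · rfl
      · intro x hx
        exact anc_mem h hx
    rw [h2, card_erase_of_mem (mem_univ v), card_univ]
    omega
  refine ⟨rs.map n, ?_, hsum, ?_, ?_⟩
  · intro k hk
    obtain ⟨r, hr, rfl⟩ := List.mem_map.1 hk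
    exact card_pos.2 ⟨r, self_mem_leg h ((hmem r).1 hr)⟩
  · rw [List.filter_map, List.length_map]
    have h1 : {w : V | T.Adj v w ∧ (T.neighborSet w).ncard = 2} =
        (((rts T v).filter (fun r => 2 ≤ n r) : Finset V) : Set V) := by
      ext w
      rw [mem_coe, mem_filter, mem_rts]
      exact and_congr_right fun hw => ((leg_two h hw).1).symm
    rw [h1, Set.ncard_coe_finset]
    rw [← length_toList]
    refine List.Perm.length_eq ?_
    refine (List.perm_ext_iff_of_nodup ((nodup_toList _).filter _) (nodup_toList _)).2 fun r => ?_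
    simp [hrs]
  · rintro ⟨c, ws, hperm, hlab, hdiff⟩
    obtain ⟨W, hW1, hW2⟩ := exists_W n rs ws (nodup_toList _) hperm
    have hws : ∀ w ∈ ws, ∃ r, T.Adj v r ∧ W r = w ∧ w.length = n r := by
      intro w hw
      obtain ⟨r, hr, hrw⟩ := List.mem_map.1 (hW1.symm.subset hw)
      exact ⟨r, (hmem r).1 hr, hrw, by rw [← hrw]; exact hW2 r hr⟩
    rw [hsum] at hlab hdiff
    set m := T.edgeSet.ncard with hm
    set f : V → ℕ := fun x => if x = v then c else (W (anc T v par x)).getD (T.dist v x - 1) 0
      with hf
    have hfv : f v = c := by simp [hf]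
    have hfx : ∀ x, x ≠ v → f x = (W (anc T v par x)).getD (T.dist v x - 1) 0 := by
      intro x hx
      simp [hf, hx]
    -- the vertex number `i` of the leg `r`
    have hpt : ∀ r, ∀ i < n r, ∃ x, x ≠ v ∧ anc T v par x = r ∧ T.dist v x - 1 = i := by
      intro r i hi
      have h1 : i ∈ (leg T v par r).image (fun x => T.dist v x - 1) := by
        rw [dist_image h r, mem_range]
        exact hi
      obtain ⟨x, hx, hxi⟩ := mem_image.1 h1
      exact ⟨x, (mem_leg.1 hx).1, (mem_leg.1 hx).2, hxi⟩
    have hsurj : ∀ y ≤ m, ∃ x, f x = y := by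
      intro y hy
      rcases hlab y hy with h1 | ⟨w, hw, hyw⟩
      · exact ⟨v, by rw [hfv, h1]⟩
      · obtain ⟨r, _, hrw, hlen⟩ := hws w hw
        obtain ⟨i, hi, hiy⟩ := List.mem_iff_getElem.1 hyw
        obtain ⟨x, hx1, hx2, hx3⟩ := hpt r i (by rw [← hlen]; exact hi)
        refine ⟨x, ?_⟩
        rw [hfx x hx1, hx2, hx3, hrw, List.getD_eq_getElem _ _ hi, hiy]
    have hsub : range (m + 1) ⊆ univ.image f := by
      intro y hy
      obtain ⟨x, hx⟩ := hsurj y (Nat.lt_succ_iff.1 (mem_range.1 hy))
      exact mem_image.2 ⟨x, mem_univ x, hx⟩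
    have hcard : (univ.image f).card ≤ (range (m + 1)).card := by
      refine card_image_le.trans ?_
      rw [card_univ, card_range]
      omega
    have heq : range (m + 1) = univ.image f := eq_of_subset_of_card_le hsub hcard
    have hinj : Function.Injective f := by
      have h1 : (univ.image f).card = (univ : Finset V).card := by
        rw [← heq, card_range, card_univ]
        omega
      have h2 := card_image_iff.1 h1
      intro x y hxy
      exact h2 (mem_coe.2 (mem_univ x)) (mem_coe.2 (mem_univ y)) hxy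
    have hle : ∀ x, f x ≤ m := by
      intro x
      have h1 : f x ∈ range (m + 1) := by
        rw [heq]
        exact mem_image_of_mem f (mem_univ x)
      exact Nat.lt_succ_iff.1 (mem_range.1 h1)
    refine ⟨f, hinj, hle, ?_⟩
    ext d
    constructor
    · rintro ⟨u, w, huw, rfl⟩
      have h1 : f u ≠ f w := fun h2 => huw.ne (hinj h2)
      have h2 := hle u
      have h3 := hle w
      rw [Set.mem_Icc]
      constructor <;> omega
    · rintro ⟨hd1, hd2⟩
      obtain ⟨w, hw, a, b, ⟨s, t, hst⟩, hab⟩ := hdiff d hd1 hd2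
      obtain ⟨r, _, hrw, hlen⟩ := hws w hw
      obtain ⟨e1, e2, e3⟩ := getD_infix s t (c :: w) a b hst
      rw [List.getD_cons_succ] at e2
      rw [List.length_cons] at e3
      obtain ⟨x, hx1, hx2, hx3⟩ := hpt r s.length (by omega)
      have hfb : f x = b := by
        rw [hfx x hx1, hx2, hx3, hrw, e2]
      have hfa : f (par x) = a := by
        by_cases hpv : par x = v
        · have h4 := (par_eq_iff h hx1).1 hpv
          have h5 : s.length = 0 := by omega
          rw [h5] at e1
          rw [hpv, hfv, ← e1]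
          rfl
        · have h5 := h.ds x hx1
          have h6 := dpos h hpv
          have h7 : s.length = (T.dist v (par x) - 1) + 1 := by omega
          rw [hfx _ hpv, ← anc_par h hx1 hpv, hx2, hrw, ← e1, h7, List.getD_cons_succ]
      refine ⟨par x, x, h.adj x hx1, ?_⟩
      rw [hfa, hfb]
      omega

end Pool.Agent.TH56.GT.Gra
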