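import Pool.Agent.TH56.GT.Five
import Pool.Agent.TH56.GT.Gra

/-!
# Spiders with at most five legs of length at least two
-/

set_option autoImplicit false

namespace Pool.Agent.TH56.GT

/-- splitting off the entries equal to one -/
theorem split_ones (ns : List ℕ) (h : ∀ n ∈ ns, 1 ≤ n) :
    ns.Perm (ns.filter (fun n => 2 ≤ n) ++ List.replicate (ns.filter (fun n => ¬ 2 ≤ n)).length 1) := by
  have h1 : (ns.filter (fun n => 2 ≤ n) ++ ns.filter (fun n => !decide (2 ≤ n))).Perm ns :=
    List.filter_append_perm _ _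
  have h2 : ns.filter (fun n => ¬ 2 ≤ n) = List.replicate (ns.filter (fun n => ¬ 2 ≤ n)).length 1 := by
    rw [List.eq_replicate_iff]
    refine ⟨rfl, fun b hb => ?_⟩
    rw [List.mem_filter] at hb
    have h3 := h b hb.1
    have h4 := hb.2
    simp at h4
    omega
  refine h1.symm.trans ?_
  refine List.Perm.append_left _ ?_
  rw [← h2]
  refine List.Perm.of_eq ?_
  congr 1
  funext n
  rw [decide_not]

/-- a sorted rearrangement -/
theorem exists_sorted (ns : List ℕ) : ∃ ms : List ℕ, ns.Perm ms ∧ ms.Pairwise (fun a b => a ≤ b) :=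
  ⟨ns.insertionSort (fun a b => a ≤ b), (List.perm_insertionSort _ _).symm, List.pairwise_insertionSort _ _⟩

theorem gu_le5 (ns : List ℕ) (h2 : ∀ n ∈ ns, 2 ≤ n) (h5 : ns.length ≤ 5) : Gu ns := by
  obtain ⟨ms, hp, hs⟩ := exists_sorted ns
  have h2' : ∀ n ∈ ms, 2 ≤ n := fun n hn => h2 n (hp.mem_iff.2 hn)
  have h5' : ms.length ≤ 5 := hp.length_eq ▸ h5
  refine Gu.perm ?_ hp.symm
  clear hp h2 h5
  match ms, h2', h5', hs with
  | [], _, _, _ => exact g0_nil.gu
  | [a], h2, _, _ =>
    have := h2 a (by simp)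
    exact (g1 a (by omega)).gu
  | [a, b], h2, _, hs =>
    simp only [List.pairwise_cons, List.mem_cons, List.not_mem_nil, or_false, forall_eq_or_imp, forall_eq] at hs h2
    exact gu2 a b h2.1 (by omega)
  | [a, b, c], h2, _, hs =>
    simp only [List.pairwise_cons, List.mem_cons, List.not_mem_nil, or_false, forall_eq_or_imp, forall_eq] at hs h2
    exact gu3 a b c h2.1 (by omega) (by omega)
  | [a, b, c, d], h2, _, hs =>
    simp only [List.pairwise_cons, List.mem_cons, List.not_mem_nil, or_false, forall_eq_or_imp, forall_eq] at hs h2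
    exact gu4 a b c d h2.1 (by omega) (by omega) (by omega)
  | [a, b, c, d, e], h2, _, hs =>
    simp only [List.pairwise_cons, List.mem_cons, List.not_mem_nil, or_false, forall_eq_or_imp, forall_eq] at hs h2
    exact gu5 a b c d e h2.1 (by omega) (by omega) (by omega) (by omega)
  | _ :: _ :: _ :: _ :: _ :: _ :: _, _, h5, _ => simp at h5; omega

/-- from the lists to the trees -/
theorem graceful_of_gu (V : Type) [Fintype V] (T : SimpleGraph V) (hT : T.IsTree) (v : V)
    (hdeg : ∀ x, x ≠ v → (T.neighborSet x).ncard ≤ 2)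
    (h : ∀ ns : List ℕ, (∀ n ∈ ns, 2 ≤ n) →
      ns.length = {w : V | T.Adj v w ∧ (T.neighborSet w).ncard = 2}.ncard → Gu ns) : Graceful T := by
  obtain ⟨ns, h1, h2, h3, h4⟩ := Gra.z_graph V T hT v hdeg
  have h5 := h (ns.filter (fun n => 2 ≤ n)) (fun n hn => by simpa using (List.mem_filter.1 hn).2) h3
  have h6 := split_ones ns h1
  exact h4 ((h5 _).perm h6.symm)

theorem five (V : Type) [Fintype V] (T : SimpleGraph V) (hT : T.IsTree) (v : V)
    (hdeg : ∀ x, x ≠ v → (T.neighborSet x).ncard ≤ 2)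
    (h5 : {w : V | T.Adj v w ∧ (T.neighborSet w).ncard = 2}.ncard ≤ 5) : Graceful T :=
  graceful_of_gu V T hT v hdeg fun ns h2 h => gu_le5 ns h2 (by omega)

end Pool.Agent.TH56.GT
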