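import Pool.Agent.TH56.GT.Def

/-!
# Spiders: the alternating path with a prescribed first label
-/

set_option autoImplicit false

namespace Pool.Agent.TH56.GT

theorem Df.mono {u w : List ℕ} {d : ℕ} (h : Df u d) (huw : u <:+: w) : Df w d := by
  obtain ⟨a, b, h1, h2⟩ := h
  exact ⟨a, b, h1.trans huw, h2⟩

theorem Df.left {u w : List ℕ} {d : ℕ} (h : Df u d) : Df (u ++ w) d :=
  h.mono (List.prefix_append u w).isInfix

theorem Df.right {u w : List ℕ} {d : ℕ} (h : Df w d) : Df (u ++ w) d :=
  h.mono (List.suffix_append u w).isInfix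

theorem Df.cons {a d : ℕ} {w : List ℕ} (h : Df w d) : Df (a :: w) d :=
  h.mono (List.suffix_cons a w).isInfix

theorem Df.reverse {w : List ℕ} {d : ℕ} (h : Df w d) : Df w.reverse d := by
  obtain ⟨a, b, h1, h2⟩ := h
  refine ⟨b, a, ?_, h2.symm⟩
  have := List.reverse_infix.2 h1
  simpa using this

theorem Df.join {u v : List ℕ} {a b d : ℕ} (hu : u.getLast? = some a) (hv : v.head? = some b)
    (h : a + d = b ∨ b + d = a) : Df (u ++ v) d := by
  obtain ⟨u', rfl⟩ : ∃ u', u = u' ++ [a] := by
    rw [List.getLast?_eq_some_iff] at hu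
    exact hu
  obtain ⟨v', rfl⟩ : ∃ v', v = b :: v' := by
    cases v with
    | nil => simp at hv
    | cons x v' => simp at hv; subst hv; exact ⟨v', rfl⟩
  refine ⟨a, b, ?_, h⟩
  exact ⟨u', v', by simp⟩

theorem Df.join_cons {v : List ℕ} {a b d : ℕ} (hv : v.head? = some b)
    (h : a + d = b ∨ b + d = a) : Df (a :: v) d :=
  Df.join (u := [a]) rfl hv h

theorem Df.map {w : List ℕ} {d e : ℕ} {R : ℕ → ℕ → Prop} (g : ℕ → ℕ) (h : Df w d) (hw : w.IsChain R)
    (hR : ∀ a b, R a b → (a + d = b ∨ b + d = a) → (g a + e = g b ∨ g b + e = g a)) :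
    Df (w.map g) e := by
  obtain ⟨a, b, h1, h2⟩ := h
  have h3 : R a b := by
    obtain ⟨s, t, hst⟩ := h1
    have h4 : w = s ++ a :: b :: t := by rw [← hst]; simp
    exact List.isChain_iff_forall_rel_of_append_cons_cons.1 hw h4
  exact ⟨g a, g b, by simpa using h1.map g, hR a b h3 h2⟩

theorem Alt.symm {p a b : ℕ} (h : Alt p a b) : Alt p b a := by
  unfold Alt at *; omega

/-- alternating path on `0, …, n-1` from `a` to `z` with the differences `1, …, n-1` -/
def Pth (P n a z : ℕ) (w : List ℕ) : Prop :=
  w.length = n ∧ w.head? = some a ∧ w.getLast? = some z ∧ (∀ y < n, y ∈ w) ∧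
    (∀ d, 1 ≤ d → d < n → Df w d) ∧ w.IsChain (Alt P)

theorem Pth.rev {P n a z : ℕ} {w : List ℕ} (h : Pth P n a z w) : Pth P n z a w.reverse := by
  obtain ⟨h1, h2, h3, h4, h5, h6⟩ := h
  refine ⟨by simpa using h1, by simpa using h3, by simpa using h2, fun y hy => by
    simpa using h4 y hy, fun d h7 h8 => (h5 d h7 h8).reverse, ?_⟩
  rw [List.isChain_reverse]
  exact h6.imp fun a b => Alt.symm

/-- reflection -/
theorem Pth.refl {P n a z : ℕ} {w : List ℕ} (h : Pth P n a z w) (hb : ∀ y ∈ w, y < n) (hP : P ≤ n) :
    Pth (n - P) n (n - 1 - a) (n - 1 - z) (w.map (fun y => n - 1 - y)) := by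
  obtain ⟨h1, h2, h3, h4, h5, h6⟩ := h
  have h7 : w.IsChain (fun a b => Alt P a b ∧ a < n ∧ b < n) := by
    refine h6.imp_of_mem_imp fun a b ha hb' hab => ⟨hab, hb a ha, hb b hb'⟩
  refine ⟨by simpa using h1, by simp [h2], by simp [h3], fun y hy => ?_, fun d h8 h9 => ?_, ?_⟩
  · rw [List.mem_map]
    exact ⟨n - 1 - y, h4 _ (by omega), by omega⟩
  · refine (h5 d h8 h9).map _ h7 fun a b hab hd => ?_
    obtain ⟨-, ha, hb'⟩ := hab
    show n - 1 - a + d = n - 1 - b ∨ n - 1 - b + d = n - 1 - a
    omega
  · refine List.isChain_map_of_isChain _ (fun a b hab => ?_) h7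
    obtain ⟨h8, h9, h10⟩ := hab
    unfold Alt at *
    omega

theorem Pth.lt {P n a z : ℕ} {w : List ℕ} (h : Pth P n a z w) : ∀ y ∈ w, y < n := by
  obtain ⟨h1, -, -, h4, -⟩ := h
  classical
  have h2 : Finset.range n ⊆ w.toFinset := by
    intro y hy
    rw [List.mem_toFinset]
    exact h4 y (Finset.mem_range.1 hy)
  have h3 : w.toFinset.card ≤ n := h1 ▸ List.toFinset_card_le w
  have h5 := Finset.eq_of_subset_of_card_le h2 (by simpa using h3)
  intro y hy
  have : y ∈ w.toFinset := List.mem_toFinset.2 hy
  rw [← h5] at this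
  exact Finset.mem_range.1 this

/-! ### the outward zigzag -/

/-- `a, b, a-1, b+1, …` (`k` pairs) -/
def zo : ℕ → ℕ → ℕ → List ℕ
  | _, _, 0 => []
  | a, b, k + 1 => a :: b :: zo (a - 1) (b + 1) k

theorem zo_length (k : ℕ) : ∀ a b, (zo a b k).length = 2 * k := by
  induction k with
  | zero => intro a b; rfl
  | succ k ih => intro a b; simp [zo, ih]; omega

theorem zo_head (a b k : ℕ) (hk : 1 ≤ k) : (zo a b k).head? = some a := by
  obtain ⟨k, rfl⟩ : ∃ j, k = j + 1 := ⟨k - 1, by omega⟩
  rfl

theorem zo_last (k : ℕ) : ∀ a b, 1 ≤ k → (zo a b k).getLast? = some (b + k - 1) := by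
  induction k with
  | zero => intro a b h; omega
  | succ k ih =>
    intro a b _
    rcases Nat.eq_zero_or_pos k with rfl | hk
    · simp [zo]
    · have := ih (a - 1) (b + 1) hk
      have h2 : zo (a - 1) (b + 1) k ≠ [] := by
        intro h
        rw [h] at this
        simp at this
      rw [zo, List.getLast?_cons_of_ne_nil (by simp), List.getLast?_cons_of_ne_nil h2, this]
      congr 1
      omega

theorem zo_mem_low (k : ℕ) : ∀ a b y, k ≤ a + 1 → y ≤ a → a < y + k → y ∈ zo a b k := by
  induction k with
  | zero => intro a b y _ h1 h2; omega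
  | succ k ih =>
    intro a b y h0 h1 h2
    rw [zo]
    rcases Nat.eq_or_lt_of_le h1 with rfl | h3
    · simp
    · refine List.mem_cons_of_mem _ (List.mem_cons_of_mem _ (ih _ _ _ (by omega) (by omega) (by omega)))

theorem zo_mem_high (k : ℕ) : ∀ a b y, b ≤ y → y < b + k → y ∈ zo a b k := by
  induction k with
  | zero => intro a b y h1 h2; omega
  | succ k ih =>
    intro a b y h1 h2
    rw [zo]
    rcases Nat.eq_or_lt_of_le h1 with rfl | h3
    · simp
    · exact List.mem_cons_of_mem _ (List.mem_cons_of_mem _ (ih _ _ _ (by omega) (by omega)))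

theorem zo_df (k : ℕ) : ∀ a b d, k ≤ a + 1 → a < b → b ≤ a + d → a + d + 2 ≤ b + 2 * k →
    Df (zo a b k) d := by
  induction k with
  | zero => intro a b d _ _ h1 h2; omega
  | succ k ih =>
    intro a b d h0 h1 h2 h3
    rw [zo]
    by_cases h4 : b = a + d
    · exact Df.join_cons (b := b) rfl (Or.inl h4.symm)
    · by_cases h5 : b + 1 = a + d
      · rcases Nat.eq_zero_or_pos k with rfl | hk
        · omega
        · refine Df.cons (Df.join_cons (b := a - 1) (zo_head _ _ _ hk) (Or.inr ?_))
          omega
      · exact Df.cons (Df.cons (ih _ _ _ (by omega) (by omega) (by omega) (by omega)))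

theorem zo_chain (P k : ℕ) : ∀ a b, k ≤ a + 1 → a < P → P ≤ b → (zo a b k).IsChain (Alt P) := by
  induction k with
  | zero => intro a b _ _ _; exact List.isChain_nil
  | succ k ih =>
    intro a b h0 h1 h2
    rw [zo]
    have h3 := ih (a - 1) (b + 1) (by omega) (by omega) (by omega)
    rw [List.isChain_cons_cons]
    refine ⟨Or.inl ⟨h1, h2⟩, ?_⟩
    rw [List.isChain_cons]
    refine ⟨fun y hy => ?_, h3⟩
    rcases Nat.eq_zero_or_pos k with rfl | hk
    · simp [zo] at hy
    · rw [zo_head _ _ _ hk] at hy
      have : a - 1 = y := by simpa using hy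
      subst this
      exact Or.inr ⟨by omega, h2⟩

/-! ### joining -/

theorem chain_join {R : ℕ → ℕ → Prop} {u v : List ℕ} {a b : ℕ} (hu : u.IsChain R) (hv : v.IsChain R)
    (ha : u.getLast? = some a) (hb : v.head? = some b) (h : R a b) : (u ++ v).IsChain R := by
  refine hu.append hv ?_
  intro x hx y hy
  rw [ha] at hx
  rw [hb] at hy
  have h1 : a = x := by simpa using hx
  have h2 : b = y := by simpa using hy
  subst h1 h2
  exact h

/-- the even path -/
theorem even (p : ℕ) : ∀ x, x < p → ∃ w, Pth p (2 * p) x (x + p) w := by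
  induction p using Nat.strong_induction_on with
  | _ p ih =>
  have key : ∀ x, 2 * x + 1 ≤ p → ∃ w, Pth p (2 * p) x (x + p) w := by
    intro x hx
    by_cases hB : 2 * x + 1 = p
    · -- the middle case
      have hsecond : ∃ v : List ℕ, v.length = 2 * x + 1 ∧ v.head? = some p ∧ v.getLast? = some (x + p) ∧
          (∀ y, x < y → y ≤ 3 * x + 1 → y ∈ v) ∧ (∀ d, 1 ≤ d → d ≤ 2 * x → Df v d) ∧
          v.IsChain (Alt p) := by
        rcases Nat.eq_zero_or_pos x with rfl | hx0
        · refine ⟨[p], rfl, rfl, by simp, ?_, ?_, List.isChain_singleton _⟩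
          · intro y h1 h2; simp; omega
          · intro d h1 h2; omega
        · refine ⟨p :: zo (p - 1) (p + 1) x, ?_, rfl, ?_, ?_, ?_, ?_⟩
          · rw [List.length_cons, zo_length]
          · have := zo_last x (p - 1) (p + 1) hx0
            rw [List.getLast?_cons_of_ne_nil, this]
            · congr 1; omega
            · intro h; rw [h] at this; simp at this
          · intro y h1 h2
            rcases lt_trichotomy y p with h3 | h3 | h3
            · exact List.mem_cons_of_mem _ (zo_mem_low _ _ _ _ (by omega) (by omega) (by omega))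
            · subst h3; simp
            · exact List.mem_cons_of_mem _ (zo_mem_high _ _ _ _ (by omega) (by omega))
          · intro d h1 h2
            rcases Nat.eq_or_lt_of_le h1 with rfl | h3
            · exact Df.join_cons (zo_head _ _ _ hx0) (Or.inr (by omega))
            · exact Df.cons (zo_df _ _ _ _ (by omega) (by omega) (by omega) (by omega))
          · rw [List.isChain_cons]
            refine ⟨fun y hy => ?_, ?_⟩
            · rw [zo_head _ _ _ hx0] at hy
              have : p - 1 = y := by simpa using hy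
              subst this
              exact Or.inr ⟨by omega, le_refl _⟩
            · have h9 := zo_chain p x (p - 1) (p + 1) (by omega) (by omega) (by omega)
              exact h9
      obtain ⟨v, v1, v2, v3, v4, v5, v6⟩ := hsecond
      have hfirst : ∃ u : List ℕ, u.length = 2 * x + 1 ∧ u.head? = some x ∧ u.getLast? = some 0 ∧
          (∀ y ≤ x, y ∈ u) ∧ (∀ y, 3 * x + 1 < y → y < 2 * p → y ∈ u) ∧
          (∀ d, 2 * x + 1 < d → d < 2 * p → Df u d) ∧ u.IsChain (Alt p) := by
        rcases Nat.eq_zero_or_pos x with rfl | hx0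
        · refine ⟨[0], rfl, rfl, rfl, ?_, ?_, ?_, List.isChain_singleton _⟩
          · intro y h1; simp; omega
          · intro y h1 h2; omega
          · intro y h1 h2; omega
        · refine ⟨zo x (2 * p - x) x ++ [0], ?_, ?_, ?_, ?_, ?_, ?_, ?_⟩
          · rw [List.length_append, zo_length]; rfl
          · rw [List.head?_append, zo_head _ _ _ hx0]; rfl
          · simp
          · intro y h1
            rcases Nat.eq_zero_or_pos y with rfl | hy
            · simp
            · exact List.mem_append_left _ (zo_mem_low _ _ _ _ (by omega) (by omega) (by omega))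
          · intro y h1 h2
            exact List.mem_append_left _ (zo_mem_high _ _ _ _ (by omega) (by omega))
          · intro d h1 h2
            by_cases h3 : d = 2 * p - 1
            · exact Df.join (zo_last _ _ _ hx0) (b := 0) rfl (Or.inr (by omega))
            · exact Df.left (zo_df _ _ _ _ (by omega) (by omega) (by omega) (by omega))
          · refine chain_join (zo_chain _ _ _ _ (by omega) (by omega) (by omega))
              (List.isChain_singleton _) (zo_last _ _ _ hx0) (b := 0) rfl ?_
            exact Or.inr ⟨by omega, by omega⟩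
      obtain ⟨u, u1, u2, u3, u4, u4', u5, u6⟩ := hfirst
      refine ⟨u ++ v, ?_, ?_, ?_, ?_, ?_, ?_⟩
      · rw [List.length_append, u1, v1]; omega
      · rw [List.head?_append, u2]; rfl
      · rw [List.getLast?_append, v3]; rfl
      · intro y hy
        rw [List.mem_append]
        by_cases h1 : y ≤ x
        · exact Or.inl (u4 y h1)
        · by_cases h2 : y ≤ 3 * x + 1
          · exact Or.inr (v4 y (by omega) h2)
          · exact Or.inl (u4' y (by omega) hy)
      · intro d h1 h2
        by_cases h3 : d ≤ 2 * x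
        · exact (v5 d h1 h3).right
        · by_cases h4 : d = 2 * x + 1
          · exact Df.join u3 v2 (Or.inl (by omega))
          · exact (u5 d (by omega) h2).left
      · exact chain_join u6 v6 u3 v2 (Or.inl ⟨by omega, le_refl _⟩)
    · -- the recursive case
      obtain ⟨v, v1, v2, v3, v4, v5, v6⟩ := ih (p - x - 1) (by omega) x (by omega)
      refine ⟨zo x (2 * p - x - 1) (x + 1) ++ v.map (fun y => y + (x + 1)), ?_, ?_, ?_, ?_, ?_, ?_⟩
      · rw [List.length_append, zo_length, List.length_map, v1]; omega
      · rw [List.head?_append, zo_head _ _ _ (by omega)]; rfl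
      · rw [List.getLast?_append]
        simp [v3]
        omega
      · intro y hy
        rw [List.mem_append, List.mem_map]
        by_cases h1 : y ≤ x
        · exact Or.inl (zo_mem_low _ _ _ _ (by omega) (by omega) (by omega))
        · by_cases h2 : y + x + 1 < 2 * p
          · exact Or.inr ⟨y - (x + 1), v4 _ (by omega), by omega⟩
          · exact Or.inl (zo_mem_high _ _ _ _ (by omega) (by omega))
      · intro d h1 h2
        by_cases h3 : d < 2 * (p - x - 1)
        · refine Df.right ((v5 d h1 h3).map _ v6 fun a b _ hd => ?_)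
          show a + (x + 1) + d = b + (x + 1) ∨ b + (x + 1) + d = a + (x + 1)
          omega
        · by_cases h4 : d = 2 * (p - x - 1)
          · refine Df.join (zo_last _ _ _ (by omega)) (b := x + (x + 1)) (by simp [v2]) (Or.inr ?_)
            omega
          · exact Df.left (zo_df _ _ _ _ (by omega) (by omega) (by omega) (by omega))
      · refine chain_join (zo_chain _ _ _ _ (by omega) (by omega) (by omega)) ?_
          (zo_last _ _ _ (by omega)) (b := x + (x + 1)) (by simp [v2]) ?_
        · refine List.isChain_map_of_isChain _ (fun a b hab => ?_) v6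
          unfold Alt at *
          omega
        · unfold Alt
          omega
  intro x hx
  by_cases h : 2 * x + 1 ≤ p
  · exact key x h
  · obtain ⟨w, hw⟩ := key (p - 1 - x) (by omega)
    have h1 := (hw.refl hw.lt (by omega)).rev
    have e1 : 2 * p - p = p := by omega
    have e2 : 2 * p - 1 - (p - 1 - x + p) = x := by omega
    have e3 : 2 * p - 1 - (p - 1 - x) = x + p := by omega
    rw [e1, e2, e3] at h1
    exact ⟨_, h1⟩

/-- the odd path -/
theorem odd (q x : ℕ) (hx : x ≤ q) (hne : 2 * x = q → q = 0) :
    ∃ w, Pth (q + 1) (2 * q + 1) x (q - x) w := by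
  have key : ∀ x, 2 * x < q → ∃ w, Pth (q + 1) (2 * q + 1) x (q - x) w := by
    intro x hx
    obtain ⟨w, hw⟩ := even (q - x) (q - x - 1 - x) (by omega)
    obtain ⟨v1, v2, v3, v4, v5, v6⟩ := hw.rev
    set v := w.reverse
    have hfirst : ∃ u : List ℕ, u.length = 2 * x + 1 ∧ u.head? = some x ∧ u.getLast? = some 0 ∧
        (∀ y ≤ x, y ∈ u) ∧ (∀ y, 2 * q < y + x → y < 2 * q + 1 → y ∈ u) ∧
        (∀ d, 2 * q < d + 2 * x → d < 2 * q + 1 → Df u d) ∧ u.IsChain (Alt (q + 1)) := by
      rcases Nat.eq_zero_or_pos x with rfl | hx0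
      · refine ⟨[0], rfl, rfl, rfl, ?_, ?_, ?_, List.isChain_singleton _⟩
        · intro y h1; simp; omega
        · intro y h1 h2; omega
        · intro y h1 h2; omega
      · refine ⟨zo x (2 * q + 1 - x) x ++ [0], ?_, ?_, ?_, ?_, ?_, ?_, ?_⟩
        · rw [List.length_append, zo_length]; rfl
        · rw [List.head?_append, zo_head _ _ _ hx0]; rfl
        · simp
        · intro y h1
          rcases Nat.eq_zero_or_pos y with rfl | hy
          · simp
          · exact List.mem_append_left _ (zo_mem_low _ _ _ _ (by omega) (by omega) (by omega))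
        · intro y h1 h2
          exact List.mem_append_left _ (zo_mem_high _ _ _ _ (by omega) (by omega))
        · intro d h1 h2
          by_cases h3 : d = 2 * q
          · exact Df.join (zo_last _ _ _ hx0) (b := 0) rfl (Or.inr (by omega))
          · exact Df.left (zo_df _ _ _ _ (by omega) (by omega) (by omega) (by omega))
        · refine chain_join (zo_chain _ _ _ _ (by omega) (by omega) (by omega))
            (List.isChain_singleton _) (zo_last _ _ _ hx0) (b := 0) rfl ?_
          exact Or.inr ⟨by omega, by omega⟩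
    obtain ⟨u, u1, u2, u3, u4, u4', u5, u6⟩ := hfirst
    have hh : (v.map (fun y => y + (x + 1))).head? = some (2 * q - 2 * x) := by
      rw [List.head?_map, v2]
      simp
      omega
    refine ⟨u ++ v.map (fun y => y + (x + 1)), ?_, ?_, ?_, ?_, ?_, ?_⟩
    · rw [List.length_append, u1, List.length_map, v1]; omega
    · rw [List.head?_append, u2]; rfl
    · rw [List.getLast?_append]
      simp [v3]
      omega
    · intro y hy
      rw [List.mem_append, List.mem_map]
      by_cases h1 : y ≤ x
      · exact Or.inl (u4 y h1)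
      · by_cases h2 : y + x ≤ 2 * q
        · exact Or.inr ⟨y - (x + 1), v4 _ (by omega), by omega⟩
        · exact Or.inl (u4' y (by omega) hy)
    · intro d h1 h2
      by_cases h3 : d < 2 * (q - x)
      · refine Df.right ((v5 d h1 h3).map _ v6 fun a b _ hd => ?_)
        show a + (x + 1) + d = b + (x + 1) ∨ b + (x + 1) + d = a + (x + 1)
        omega
      · by_cases h4 : d = 2 * (q - x)
        · exact Df.join u3 hh (Or.inl (by omega))
        · exact (u5 d (by omega) h2).left
    · refine chain_join u6 ?_ u3 hh ?_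
      · refine List.isChain_map_of_isChain _ (fun a b hab => ?_) v6
        unfold Alt at *
        omega
      · unfold Alt
        omega
  by_cases h0 : q = 0
  · subst h0
    have : x = 0 := by omega
    subst this
    refine ⟨[0], rfl, rfl, rfl, ?_, ?_, List.isChain_singleton _⟩
    · intro y h1; simp; omega
    · intro y h1 h2; omega
  · by_cases h : 2 * x < q
    · exact key x h
    · have h1 : 2 * x ≠ q := fun h => h0 (hne h)
      obtain ⟨w, hw⟩ := key (q - x) (by omega)
      have h2 := hw.rev
      rw [show q - (q - x) = x by omega] at h2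
      exact ⟨_, h2⟩

end Pool.Agent.TH56.GT
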