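import Pool.Agent.TH56.GT.Basic

/-!
# Spiders: blocks
-/

set_option autoImplicit false

namespace Pool.Agent.TH56.GT

/-- block with `p` low labels `l, …, l+p-1` and `q` high labels `h-q+1, …, h`: a path from `e` to `z` which
uses all these labels and all the differences between `h-l+2-(p+q)` and `h-l` -/
def PBz (l h p q e z : ℕ) : Prop := ∃ w : List ℕ, w.length = p + q ∧ w.head? = some e ∧
  w.getLast? = some z ∧
  (∀ y, l ≤ y → y < l + p → y ∈ w) ∧ (∀ y, h < y + q → y ≤ h → y ∈ w) ∧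
  (∀ d, h + 1 < l + d + (p + q) → l + d ≤ h → Df w d) ∧
  w.IsChain (fun a b => (a < l + p ∧ h < b + q) ∨ (b < l + p ∧ h < a + q))

theorem PBz.pb {l h p q e z : ℕ} (hw : PBz l h p q e z) : PB l h p q e := by
  obtain ⟨w, w1, w2, -, w4, w5, w6, w7⟩ := hw
  exact ⟨w, w1, w2, w4, w5, w6, w7⟩

/-- placing a path in the block -/
theorem PBz.of_pth {l h p q a b : ℕ} {w : List ℕ} (hw : Pth p (p + q) a b w) (hlh : l + p + q ≤ h + 1)
    (e z : ℕ) (he : (a < p ∧ e = l + a) ∨ (p ≤ a ∧ e + (p + q) = h + 1 + a))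
    (hz : (b < p ∧ z = l + b) ∨ (p ≤ b ∧ z + (p + q) = h + 1 + b)) : PBz l h p q e z := by
  obtain ⟨w1, w2, w3, w4, w5, w6⟩ := hw
  refine ⟨w.map (fun y => if y < p then l + y else h + 1 + y - (p + q)), by simpa using w1, ?_, ?_, ?_, ?_,
    ?_, ?_⟩
  · rw [List.head?_map, w2]
    simp only [Option.map_some, Option.some.injEq]
    split_ifs <;> omega
  · rw [List.getLast?_map, w3]
    simp only [Option.map_some, Option.some.injEq]
    split_ifs <;> omega
  · intro y h1 h2
    rw [List.mem_map]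
    refine ⟨y - l, w4 _ (by omega), ?_⟩
    split_ifs <;> omega
  · intro y h1 h2
    rw [List.mem_map]
    refine ⟨y + (p + q) - (h + 1), w4 _ (by omega), ?_⟩
    split_ifs <;> omega
  · intro d h1 h2
    refine (w5 (l + d + (p + q) - (h + 1)) (by omega) (by omega)).map _ w6 fun a b hab hd => ?_
    unfold Alt at hab
    show (if a < p then l + a else h + 1 + a - (p + q)) + d = (if b < p then l + b else h + 1 + b - (p + q)) ∨
      (if b < p then l + b else h + 1 + b - (p + q)) + d = (if a < p then l + a else h + 1 + a - (p + q))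
    split_ifs <;> omega
  · refine List.isChain_map_of_isChain _ (fun a b hab => ?_) w6
    unfold Alt at hab
    show (((if a < p then l + a else h + 1 + a - (p + q)) < l + p ∧
      h < (if b < p then l + b else h + 1 + b - (p + q)) + q) ∨
      ((if b < p then l + b else h + 1 + b - (p + q)) < l + p ∧
      h < (if a < p then l + a else h + 1 + a - (p + q)) + q))
    split_ifs <;> omega

/-- a high entrance: `⌊n/2⌋` low and `⌈n/2⌉` high labels, entrance `e = h - x`; for even `n` the last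
label is low, `l + p - 1 - x`, for odd `n` it is high, `h - p + x` -/
theorem PBz.high {l h n x e z : ℕ} (hlh : l + n ≤ h + 1) (hx : x < (n + 1) / 2)
    (hne : n = 4 * x + 1 → x = 0) (he : e + x = h)
    (hz : (2 * (n / 2) = n ∧ z + x + 1 = l + n / 2) ∨ (2 * (n / 2) + 1 = n ∧ z + n / 2 = h + x)) :
    PBz l h (n / 2) ((n + 1) / 2) e z := by
  obtain ⟨k, hk | hk⟩ : ∃ k, n = 2 * k ∨ n = 2 * k + 1 := ⟨n / 2, by omega⟩
  · obtain ⟨w, hw⟩ := even k (k - 1 - x) (by omega)
    rw [show (n + 1) / 2 = k by omega, show n / 2 = k by omega]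
    rw [two_mul] at hw
    exact PBz.of_pth hw.rev (by omega) _ _ (Or.inr ⟨by omega, by omega⟩) (Or.inl ⟨by omega, by omega⟩)
  · obtain ⟨w, hw⟩ := odd k x (by omega) (by omega)
    have h1 := hw.refl hw.lt (by omega)
    rw [show 2 * k + 1 - (k + 1) = k by omega, show 2 * k + 1 - 1 - x = 2 * k - x by omega] at h1
    rw [show Pth k (2 * k + 1) = Pth k (k + (k + 1)) by congr 1; omega] at h1
    rw [show (n + 1) / 2 = k + 1 by omega, show n / 2 = k by omega]
    exact PBz.of_pth h1 (by omega) _ _ (Or.inr ⟨by omega, by omega⟩) (Or.inr ⟨by omega, by omega⟩)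

/-- a low entrance: `⌈n/2⌉` low and `⌊n/2⌋` high labels, entrance `e = l + x`; for even `n` the last
label is high, `h - q + 1 + x`, for odd `n` it is low, `l + q - x` -/
theorem PBz.low {l h n x e z : ℕ} (hlh : l + n ≤ h + 1) (hx : x < (n + 1) / 2)
    (hne : n = 4 * x + 1 → x = 0) (he : e = l + x)
    (hz : (2 * (n / 2) = n ∧ z + n / 2 = h + 1 + x) ∨ (2 * (n / 2) + 1 = n ∧ z + x = l + n / 2)) :
    PBz l h ((n + 1) / 2) (n / 2) e z := by
  obtain ⟨k, hk | hk⟩ : ∃ k, n = 2 * k ∨ n = 2 * k + 1 := ⟨n / 2, by omega⟩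
  · obtain ⟨w, hw⟩ := even k x (by omega)
    rw [show (n + 1) / 2 = k by omega, show n / 2 = k by omega]
    rw [two_mul] at hw
    exact PBz.of_pth hw (by omega) _ _ (Or.inl ⟨by omega, by omega⟩) (Or.inr ⟨by omega, by omega⟩)
  · obtain ⟨w, hw⟩ := odd k x (by omega) (by omega)
    rw [show 2 * k + 1 = (k + 1) + k by omega] at hw
    rw [show (n + 1) / 2 = k + 1 by omega, show n / 2 = k by omega]
    exact PBz.of_pth hw (by omega) _ _ (Or.inl ⟨by omega, by omega⟩) (Or.inl ⟨by omega, by omega⟩)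

/-- a high entrance without the last label -/
theorem PB.high {l h n x e : ℕ} (hlh : l + n ≤ h + 1) (hx : x < (n + 1) / 2) (hne : n = 4 * x + 1 → x = 0)
    (he : e + x = h) : PB l h (n / 2) ((n + 1) / 2) e := by
  by_cases h2 : 2 * (n / 2) = n
  · exact (PBz.high (z := l + n / 2 - x - 1) hlh hx hne he (Or.inl ⟨h2, by omega⟩)).pb
  · exact (PBz.high (z := h + x - n / 2) hlh hx hne he (Or.inr ⟨by omega, by omega⟩)).pb

/-- a low entrance without the last label -/
theorem PB.low {l h n x e : ℕ} (hlh : l + n ≤ h + 1) (hx : x < (n + 1) / 2) (hne : n = 4 * x + 1 → x = 0)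
    (he : e = l + x) : PB l h ((n + 1) / 2) (n / 2) e := by
  by_cases h2 : 2 * (n / 2) = n
  · exact (PBz.low (z := h + 1 + x - n / 2) hlh hx hne he (Or.inl ⟨h2, by omega⟩)).pb
  · exact (PBz.low (z := l + n / 2 - x) hlh hx hne he (Or.inr ⟨by omega, by omega⟩)).pb

end Pool.Agent.TH56.GT
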