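import Pool.Agent.TH56.GT.Basic

/-!
# Spiders: composition
-/

set_option autoImplicit false

namespace Pool.Agent.TH56.GT

theorem G0.perm {ns ms : List ℕ} (h : G0 ns) (hp : ns.Perm ms) : G0 ms := by
  obtain ⟨ws, h1, h2⟩ := h
  exact ⟨ws, h1.trans hp, hp.sum_eq ▸ h2⟩

theorem A0.perm {ns ms : List ℕ} (h : A0 ns) (hp : ns.Perm ms) : A0 ms := by
  obtain ⟨p, ws, h0, h0', h1, h2, h3⟩ := h
  exact ⟨p, ws, h0, hp.sum_eq ▸ h0', h1.trans hp, hp.sum_eq ▸ h2, h3⟩

theorem A0.g0 {ns : List ℕ} (h : A0 ns) : G0 ns := by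
  obtain ⟨p, ws, h0, h0', h1, h2, h3⟩ := h
  exact ⟨ws, h1, h2⟩

/-- every label is at most the sum -/
theorem Cov.le {c m : ℕ} {ws : List (List ℕ)} {ns : List ℕ} (h : Cov c m ws)
    (hl : (ws.map List.length).Perm ns) (hs : ns.sum = m) (hc : c ≤ m) : ∀ w ∈ ws, ∀ y ∈ w, y ≤ m := by
  classical
  obtain ⟨h1, -⟩ := h
  have h2 : Finset.range (m + 1) ⊆ (c :: ws.flatten).toFinset := by
    intro y hy
    rw [List.mem_toFinset, List.mem_cons, List.mem_flatten]
    exact h1 y (by simpa [Nat.lt_succ_iff] using hy)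
  have h3 : (c :: ws.flatten).toFinset.card ≤ m + 1 := by
    refine (List.toFinset_card_le _).trans ?_
    rw [List.length_cons, List.length_flatten, hl.sum_eq, hs]
  have h5 := Finset.eq_of_subset_of_card_le h2 (by simpa using h3)
  intro w hw y hy
  have : y ∈ (c :: ws.flatten).toFinset := by
    rw [List.mem_toFinset, List.mem_cons, List.mem_flatten]
    exact Or.inr ⟨w, hw, hy⟩
  rw [← h5] at this
  simpa [Nat.lt_succ_iff] using this

/-- `u` more legs of length one -/
theorem G0.units {ns : List ℕ} (h : G0 ns) (u : ℕ) : G0 (ns ++ List.replicate u 1) := by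
  obtain ⟨ws, h1, h2, h3⟩ := h
  refine ⟨ws ++ (List.range u).map (fun i => [ns.sum + 1 + i]), ?_, ?_, ?_⟩
  · rw [List.map_append]
    refine h1.append ?_
    rw [List.map_map]
    refine List.Perm.of_eq ?_
    rw [List.eq_replicate_iff]
    simp
  · intro y hy
    rw [List.sum_append, List.sum_replicate, smul_eq_mul, mul_one] at hy
    by_cases h4 : y ≤ ns.sum
    · rcases h2 y h4 with h5 | ⟨w, hw, h5⟩
      · exact Or.inl h5
      · exact Or.inr ⟨w, List.mem_append_left _ hw, h5⟩
    · refine Or.inr ⟨[y], List.mem_append_right _ (List.mem_map.2 ⟨y - (ns.sum + 1), ?_, ?_⟩), by simp⟩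
      · rw [List.mem_range]; omega
      · congr 1; omega
  · intro d hd hy
    rw [List.sum_append, List.sum_replicate, smul_eq_mul, mul_one] at hy
    by_cases h4 : d ≤ ns.sum
    · obtain ⟨w, hw, h5⟩ := h3 d hd h4
      exact ⟨w, List.mem_append_left _ hw, h5⟩
    · refine ⟨[d], List.mem_append_right _ (List.mem_map.2 ⟨d - (ns.sum + 1), ?_, ?_⟩), ?_⟩
      · rw [List.mem_range]; omega
      · congr 1; omega
      · exact ⟨0, d, List.infix_refl _, Or.inl (by omega)⟩

/-- an `α`-labelled spider around a spider with hub label `0` -/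
theorem compose {ns ms : List ℕ} (hn : A0 ns) (hm : G0 ms) : ∃ (c : ℕ) (ws : List (List ℕ)),
    (ws.map List.length).Perm (ns ++ ms) ∧ Cov c (ns ++ ms).sum ws := by
  obtain ⟨p, us, hp, hp', u1, ⟨u2, u3⟩, u4⟩ := hn
  obtain ⟨vs, v1, ⟨v2, v3⟩⟩ := hm
  set a := ns.sum with ha
  set m := ms.sum with hm
  have hle : ∀ w ∈ us, ∀ y ∈ w, y ≤ a := Cov.le ⟨u2, u3⟩ u1 rfl (Nat.zero_le _)
  set f : ℕ → ℕ := fun y => if y < p then p - 1 - y else a + m + p - y with hf
  set g : ℕ → ℕ := fun y => p - 1 + y with hg
  refine ⟨p - 1, us.map (fun w => w.map f) ++ vs.map (fun w => w.map g), ?_, ?_, ?_⟩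
  · rw [List.map_append, List.map_map, List.map_map]
    refine List.Perm.append ?_ ?_
    · convert u1 using 2
      funext w
      simp
    · convert v1 using 2
      funext w
      simp
  · intro y hy
    rw [List.sum_append, ← ha, ← hm] at hy
    by_cases h1 : y < p
    · rcases u2 (p - 1 - y) (by omega) with h2 | ⟨w, hw, h2⟩
      · left; omega
      · refine Or.inr ⟨w.map f, List.mem_append_left _ (List.mem_map_of_mem hw), List.mem_map.2 ⟨_, h2, ?_⟩⟩
        rw [hf]
        show (if p - 1 - y < p then p - 1 - (p - 1 - y) else a + m + p - (p - 1 - y)) = y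
        split_ifs <;> omega
    · by_cases h2 : y < p + m
      · rcases v2 (y - (p - 1)) (by omega) with h3 | ⟨w, hw, h3⟩
        · omega
        · refine Or.inr ⟨w.map g, List.mem_append_right _ (List.mem_map_of_mem hw),
            List.mem_map.2 ⟨_, h3, ?_⟩⟩
          rw [hg]
          show p - 1 + (y - (p - 1)) = y
          omega
      · rcases u2 (a + m + p - y) (by omega) with h3 | ⟨w, hw, h3⟩
        · omega
        · refine Or.inr ⟨w.map f, List.mem_append_left _ (List.mem_map_of_mem hw),
            List.mem_map.2 ⟨_, h3, ?_⟩⟩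
          rw [hf]
          show (if a + m + p - y < p then p - 1 - (a + m + p - y) else a + m + p - (a + m + p - y)) = y
          split_ifs <;> omega
  · intro d hd hdm
    rw [List.sum_append, ← ha, ← hm] at hdm
    by_cases h1 : d ≤ m
    · obtain ⟨w, hw, h2⟩ := v3 d hd h1
      refine ⟨w.map g, List.mem_append_right _ (List.mem_map_of_mem hw), ?_⟩
      have h3 : (0 :: w).map g = (p - 1) :: w.map g := rfl
      rw [← h3]
      obtain ⟨x, y, h4, h5⟩ := h2
      refine ⟨g x, g y, by simpa using h4.map g, ?_⟩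
      show p - 1 + x + d = p - 1 + y ∨ p - 1 + y + d = p - 1 + x
      omega
    · obtain ⟨w, hw, h2⟩ := u3 (a + m + 1 - d) (by omega) (by omega)
      refine ⟨w.map f, List.mem_append_left _ (List.mem_map_of_mem hw), ?_⟩
      have h3 : (0 :: w).map f = (p - 1) :: w.map f := by
        rw [List.map_cons]
        congr 1
        show (if 0 < p then p - 1 - 0 else a + m + p - 0) = p - 1
        split_ifs <;> omega
      rw [← h3]
      have h4 : (0 :: w).IsChain (fun x y => Alt p x y ∧ x ≤ a ∧ y ≤ a) := by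
        refine (u4 w hw).imp_of_mem_imp fun x y hx hy hxy => ⟨hxy, ?_, ?_⟩
        · rcases List.mem_cons.1 hx with rfl | hx
          · omega
          · exact hle w hw x hx
        · rcases List.mem_cons.1 hy with rfl | hy
          · omega
          · exact hle w hw y hy
      refine h2.map f h4 fun x y hxy hd' => ?_
      obtain ⟨h5, h6, h7⟩ := hxy
      unfold Alt at h5
      show (if x < p then p - 1 - x else a + m + p - x) + d = (if y < p then p - 1 - y else a + m + p - y) ∨
        (if y < p then p - 1 - y else a + m + p - y) + d = (if x < p then p - 1 - x else a + m + p - x)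
      split_ifs <;> omega

end Pool.Agent.TH56.GT
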