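import Pool.Agent.TH56.GT.Three

/-!
# Spiders: at most five legs of length at least two
-/

set_option autoImplicit false

namespace Pool.Agent.TH56.GT

/-- the spider with legs of lengths `ns` is graceful -/
def GG (ns : List ℕ) : Prop := ∃ (c : ℕ) (ws : List (List ℕ)), (ws.map List.length).Perm ns ∧ Cov c ns.sum ws

/-- the same with any number of further legs of length one -/
def Gu (ns : List ℕ) : Prop := ∀ u, GG (ns ++ List.replicate u 1)

theorem GG.perm {ns ms : List ℕ} (h : GG ns) (hp : ns.Perm ms) : GG ms := by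
  obtain ⟨c, ws, h1, h2⟩ := h
  exact ⟨c, ws, h1.trans hp, hp.sum_eq ▸ h2⟩

theorem Gu.perm {ns ms : List ℕ} (h : Gu ns) (hp : ns.Perm ms) : Gu ms := fun u =>
  (h u).perm (hp.append_right _)

theorem G0.gu {ns : List ℕ} (h : G0 ns) : Gu ns := by
  intro u
  obtain ⟨ws, h1, h2⟩ := h.units u
  exact ⟨0, ws, h1, h2⟩

theorem A0.gu {ns ms : List ℕ} (hn : A0 ns) (hm : G0 ms) : Gu (ns ++ ms) := by
  intro u
  rw [List.append_assoc]
  exact compose hn (hm.units u)

theorem gu2 (a b : ℕ) (ha : 2 ≤ a) (hab : a ≤ b) : Gu [a, b] := (g2 a b (by omega) hab).gu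

theorem gu3 (a b c : ℕ) (ha : 2 ≤ a) (hab : a ≤ b) (hbc : b ≤ c) : Gu [a, b, c] := by
  by_cases h : c = 2
  · obtain ⟨rfl, rfl, rfl⟩ : a = 2 ∧ b = 2 ∧ c = 2 := by omega
    exact (g3_eq 1 le_rfl).gu
  · refine ((a2 b c (by omega) hbc (by omega)).gu (g1 a (by omega))).perm ?_
    exact List.perm_append_comm (l₁ := [b, c]) (l₂ := [a])

theorem gu4 (a b c d : ℕ) (ha : 2 ≤ a) (hab : a ≤ b) (hbc : b ≤ c) (hcd : c ≤ d) : Gu [a, b, c, d] := by
  by_cases h : d = 2
  · obtain ⟨rfl, rfl, rfl, rfl⟩ : a = 2 ∧ b = 2 ∧ c = 2 ∧ d = 2 := by omega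
    refine G0.gu ⟨[[8, 4], [7, 5], [6, 1], [3, 2]], List.Perm.refl _, cov_of (by decide) (by decide)⟩
  · refine ((a2 c d (by omega) hcd (by omega)).gu (g2 a b (by omega) hab)).perm ?_
    exact List.perm_append_comm (l₁ := [c, d]) (l₂ := [a, b])

theorem gu5 (a b c d e : ℕ) (ha : 2 ≤ a) (hab : a ≤ b) (hbc : b ≤ c) (hcd : c ≤ d) (hde : d ≤ e) :
    Gu [a, b, c, d, e] := by
  by_cases he : e = 2
  · obtain ⟨rfl, rfl, rfl, rfl, rfl⟩ : a = 2 ∧ b = 2 ∧ c = 2 ∧ d = 2 ∧ e = 2 := by omega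
    refine G0.gu ⟨[[10, 6], [9, 4], [8, 5], [7, 1], [2, 3]], List.Perm.refl _, cov_of (by decide) (by decide)⟩
  -- a good pair among the first four legs
  have key : Gp a b ∨ Gp a c ∨ Gp b c ∨ (Gp a d ∧ (b ≠ 2 ∨ c ≠ 2)) ∨ (Gp c d ∧ a ≠ 2) ∨
      (∃ k, 1 ≤ k ∧ a = 2 * k ∧ b = 2 * k ∧ c = 2 * k) ∨ (a = 2 ∧ b = 2 ∧ c = 5 ∧ d = 5) := by
    by_contra hcon
    simp only [not_or, not_and, not_exists, Gp] at hcon
    obtain ⟨k1, k2, k3, k4, k5, k6, k7⟩ := hcon
    have k6' := k6 (a / 2) (by omega)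
    clear k6
    omega
  rcases key with h | h | h | ⟨h, h'⟩ | ⟨h, h'⟩ | ⟨k, hk, rfl, rfl, rfl⟩ | ⟨rfl, rfl, rfl, rfl⟩
  · refine ((a2 d e (by omega) hde (by omega)).gu (g3 a b c ha hab hbc h)).perm ?_
    exact List.perm_append_comm (l₁ := [d, e]) (l₂ := [a, b, c])
  · refine ((a2 b e (by omega) (by omega) (by omega)).gu (g3 a c d ha (by omega) hcd h)).perm ?_
    rw [List.perm_iff_count]; intro t; simp [List.count_cons]; omega
  · refine ((a2 a e (by omega) (by omega) (by omega)).gu (g3 b c d (by omega) hbc hcd h)).perm ?_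
    rw [List.perm_iff_count]; intro t; simp [List.count_cons]; omega
  · refine ((a2 b c (by omega) (by omega) (by omega)).gu (g3 a d e (by omega) (by omega) hde h)).perm ?_
    rw [List.perm_iff_count]; intro t; simp [List.count_cons]; omega
  · refine ((a2 a b (by omega) (by omega) (by omega)).gu (g3 c d e (by omega) hcd hde h)).perm ?_
    rw [List.perm_iff_count]; intro t; simp [List.count_cons]
  · refine ((a2 d e (by omega) hde (by omega)).gu (g3_eq k hk)).perm ?_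
    exact List.perm_append_comm (l₁ := [d, e]) (l₂ := [2 * k, 2 * k, 2 * k])
  · refine ((a2 2 e (by omega) (by omega) (by omega)).gu
      (⟨[[12, 8], [11, 5, 4, 6, 3], [10, 1, 9, 2, 7]], List.Perm.refl _,
        cov_of (by decide) (by decide)⟩ : G0 [2, 5, 5])).perm ?_
    rw [List.perm_iff_count]; intro t; simp [List.count_cons]; omega

end Pool.Agent.TH56.GT
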