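import Pool.Agent.TH56.GT.Block
import Pool.Agent.TH56.GT.Comp

/-!
# Spiders: nested blocks around the hub

A scheme is a list of triples `(n, e, t)`: a path with `n` vertices, starting at `e`; `t = true` if `e` is one of
the high labels of its block.
-/

set_option autoImplicit false

namespace Pool.Agent.TH56.GT

/-- the number of vertices -/
def S (L : List (ℕ × ℕ × Bool)) : ℕ := (L.map (fun a => a.1)).sum

/-- the number of low labels of a block -/
def lo (n : ℕ) (t : Bool) : ℕ := if t then n / 2 else (n + 1) / 2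

/-- the number of low labels -/
def lows (L : List (ℕ × ℕ × Bool)) : ℕ := (L.map (fun a => lo a.1 a.2.2)).sum

/-- condition for the block -/
def BC (l h n e : ℕ) (t : Bool) : Prop :=
  (t = true ∧ e ≤ h ∧ h - e < (n + 1) / 2 ∧ (n = 4 * (h - e) + 1 → e = h)) ∨
  (t = false ∧ l ≤ e ∧ e - l < (n + 1) / 2 ∧ (n = 4 * (e - l) + 1 → e = l))

/-- the scheme can be realized with the labels `l, …, l + S L - 1` -/
def Sch : ℕ → List (ℕ × ℕ × Bool) → Prop
  | _, [] => True
  | l, a :: L => BC l (l + a.1 + S L - 1) a.1 a.2.1 a.2.2 ∧ Sch (l + lo a.1 a.2.2) L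

theorem S_nil : S [] = 0 := rfl
theorem S_cons (a : ℕ × ℕ × Bool) (L : List (ℕ × ℕ × Bool)) : S (a :: L) = a.1 + S L := by simp [S]
theorem lows_nil : lows [] = 0 := rfl
theorem lows_cons (a : ℕ × ℕ × Bool) (L : List (ℕ × ℕ × Bool)) : lows (a :: L) = lo a.1 a.2.2 + lows L := by
  simp [lows]

theorem BC.exists {l h n e : ℕ} {t : Bool} (hb : BC l h n e t) (hlh : l + n ≤ h + 1) :
    ∃ w : List ℕ, w.length = n ∧ w.head? = some e ∧ (∀ y, l ≤ y → y < l + lo n t → y ∈ w) ∧
      (∀ y, h + lo n t < y + n → y ≤ h → y ∈ w) ∧ (∀ d, h + 1 < l + d + n → l + d ≤ h → Df w d) ∧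
      ∀ P, l + lo n t ≤ P → P + n ≤ h + 1 + lo n t → w.IsChain (Alt P) := by
  rcases hb with ⟨rfl, h1, h2, h3⟩ | ⟨rfl, h1, h2, h3⟩
  · obtain ⟨w, w1, w2, w3, w4, w5, w6⟩ := PB.high (l := l) (h := h) (n := n) (x := h - e) (e := e) hlh h2
      (fun h4 => by have := h3 h4; omega) (by omega)
    have hlo : lo n true = n / 2 := rfl
    rw [hlo]
    refine ⟨w, by omega, w2, w3, fun y h4 h5 => w4 y (by omega) h5, fun d h4 h5 => w5 d (by omega) h5, ?_⟩
    intro P hP1 hP2
    refine w6.imp fun a b hab => ?_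
    unfold Alt
    omega
  · obtain ⟨w, w1, w2, w3, w4, w5, w6⟩ := PB.low (l := l) (h := h) (n := n) (x := e - l) (e := e) hlh h2
      (fun h4 => by have := h3 h4; omega) (by omega)
    have hlo : lo n false = (n + 1) / 2 := rfl
    rw [hlo]
    refine ⟨w, by omega, w2, w3, fun y h4 h5 => w4 y (by omega) h5, fun d h4 h5 => w5 d (by omega) h5, ?_⟩
    intro P hP1 hP2
    refine w6.imp fun a b hab => ?_
    unfold Alt
    omega

theorem lo_le (n : ℕ) (t : Bool) : lo n t ≤ n := by
  unfold lo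
  split_ifs <;> omega

theorem lows_le (L : List (ℕ × ℕ × Bool)) : lows L ≤ S L := by
  induction L with
  | nil => exact le_refl _
  | cons a L ih => rw [lows_cons, S_cons]; have := lo_le a.1 a.2.2; omega

theorem sch_exists (L : List (ℕ × ℕ × Bool)) : ∀ l, Sch l L → ∃ ws : List (List ℕ),
    ws.map List.length = L.map (fun a => a.1) ∧ ws.map List.head? = L.map (fun a => some a.2.1) ∧
    (∀ y, l ≤ y → y < l + S L → ∃ w ∈ ws, y ∈ w) ∧
    (∀ d, 1 ≤ d → d < S L → (∃ w ∈ ws, Df w d) ∨ ∃ M, M <:+ L ∧ S M = d) ∧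
    (∀ w ∈ ws, w.IsChain (Alt (l + lows L))) := by
  induction L with
  | nil =>
    intro l _
    refine ⟨[], rfl, rfl, ?_, ?_, by simp⟩
    · intro y h1 h2; rw [S_nil] at h2; omega
    · intro y h1 h2; rw [S_nil] at h2; omega
  | cons a L ih =>
    intro l hL
    obtain ⟨h1, h2⟩ := hL
    obtain ⟨ws, w1, w2, w3, w4, w5⟩ := ih _ h2
    obtain ⟨w, u1, u2, u3, u4, u5, u6⟩ := h1.exists (by omega)
    rw [S_cons, lows_cons]
    have hll := lo_le a.1 a.2.2
    have hls := lows_le L
    refine ⟨w :: ws, by simp [w1, u1], by simp [w2, u2], ?_, ?_, ?_⟩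
    · intro y h3 h4
      by_cases h5 : y < l + lo a.1 a.2.2
      · exact ⟨w, List.mem_cons_self, u3 y h3 h5⟩
      · by_cases h6 : y < l + lo a.1 a.2.2 + S L
        · obtain ⟨v, hv, hy⟩ := w3 y (by omega) h6
          exact ⟨v, List.mem_cons_of_mem _ hv, hy⟩
        · exact ⟨w, List.mem_cons_self, u4 y (by omega) (by omega)⟩
    · intro d h3 h4
      rcases lt_trichotomy d (S L) with h5 | h5 | h5
      · rcases w4 d h3 h5 with ⟨v, hv, hd⟩ | ⟨M, hM, hd⟩
        · exact Or.inl ⟨v, List.mem_cons_of_mem _ hv, hd⟩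
        · exact Or.inr ⟨M, hM.trans (List.suffix_cons _ _), hd⟩
      · exact Or.inr ⟨L, List.suffix_cons _ _, h5.symm⟩
      · exact Or.inl ⟨w, List.mem_cons_self, u5 d (by omega) (by omega)⟩
    · intro v hv
      rcases List.mem_cons.1 hv with rfl | hv
      · exact u6 _ (by omega) (by omega)
      · rw [← add_assoc]
        exact w5 v hv

/-- graceful labelling of the spider from a scheme -/
theorem Sch.g0 {L : List (ℕ × ℕ × Bool)} (h : Sch 1 L)
    (he : ∀ M, M <:+ L → M ≠ [] → ∃ a ∈ L, a.2.1 = S M) : G0 (L.map (fun a => a.1)) := by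
  obtain ⟨ws, w1, w2, w3, w4, -⟩ := sch_exists L 1 h
  refine ⟨ws, List.Perm.of_eq w1, ?_, ?_⟩
  · intro y hy
    rcases Nat.eq_zero_or_pos y with h1 | h1
    · exact Or.inl h1
    · exact Or.inr (w3 y h1 (by unfold S; omega))
  · intro d hd1 hd2
    have key : ∀ M, M <:+ L → M ≠ [] → S M = d → ∃ w ∈ ws, Df (0 :: w) d := by
      intro M hM hM0 hd
      obtain ⟨a, ha, hae⟩ := he M hM hM0
      have h1 : some a.2.1 ∈ ws.map List.head? := by
        rw [w2]
        exact List.mem_map.2 ⟨a, ha, rfl⟩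
      obtain ⟨w, hw, h2⟩ := List.mem_map.1 h1
      exact ⟨w, hw, Df.join_cons h2 (by omega)⟩
    rcases Nat.eq_or_lt_of_le hd2 with h1 | h1
    · refine key L (List.suffix_refl _) ?_ h1.symm
      rintro rfl
      simp at h1
      omega
    · rcases w4 d hd1 h1 with ⟨w, hw, h2⟩ | ⟨M, hM, h2⟩
      · exact ⟨w, hw, h2.cons⟩
      · refine key M hM ?_ h2
        rintro rfl
        rw [S_nil] at h2
        omega

/-- `α`-labelling of the spider from a scheme -/
theorem Sch.a0 {L : List (ℕ × ℕ × Bool)} (h : Sch 1 L)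
    (he : ∀ M, M <:+ L → M ≠ [] → ∃ a ∈ L, a.2.1 = S M) (hL : ∀ a ∈ L, 1 + lows L ≤ a.2.1) :
    A0 (L.map (fun a => a.1)) := by
  obtain ⟨ws, w1, w2, w3, w4, w5⟩ := sch_exists L 1 h
  refine ⟨1 + lows L, ws, by omega, ?_, List.Perm.of_eq w1, ⟨?_, ?_⟩, ?_⟩
  · have := lows_le L
    unfold S at this
    omega
  · intro y hy
    rcases Nat.eq_zero_or_pos y with h1 | h1
    · exact Or.inl h1
    · exact Or.inr (w3 y h1 (by unfold S; omega))
  · intro d hd1 hd2
    have key : ∀ M, M <:+ L → M ≠ [] → S M = d → ∃ w ∈ ws, Df (0 :: w) d := by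
      intro M hM hM0 hd
      obtain ⟨a, ha, hae⟩ := he M hM hM0
      have h1 : some a.2.1 ∈ ws.map List.head? := by
        rw [w2]
        exact List.mem_map.2 ⟨a, ha, rfl⟩
      obtain ⟨w, hw, h2⟩ := List.mem_map.1 h1
      exact ⟨w, hw, Df.join_cons h2 (by omega)⟩
    rcases Nat.eq_or_lt_of_le hd2 with h1 | h1
    · refine key L (List.suffix_refl _) ?_ h1.symm
      rintro rfl
      simp at h1
      omega
    · rcases w4 d hd1 h1 with ⟨w, hw, h2⟩ | ⟨M, hM, h2⟩
      · exact ⟨w, hw, h2.cons⟩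
      · refine key M hM ?_ h2
        rintro rfl
        rw [S_nil] at h2
        omega
  · intro w hw
    rw [List.isChain_cons]
    refine ⟨fun y hy => ?_, w5 w hw⟩
    have h1 : w.head? ∈ ws.map List.head? := List.mem_map_of_mem hw
    rw [w2] at h1
    obtain ⟨a, ha, h2⟩ := List.mem_map.1 h1
    have h3 := hL a ha
    rw [← h2] at hy
    have h4 : a.2.1 = y := by simpa using hy
    refine Or.inl ⟨by omega, by omega⟩

/-- a scheme with one leg starting with the largest label: graceful labelling -/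
theorem Sch.twist {L₁ L₂ : List (ℕ × ℕ × Bool)} {a : ℕ × ℕ × Bool} (h : Sch 1 (L₁ ++ a :: L₂))
    (he : ∀ M, M <:+ (L₁ ++ a :: L₂) → M ≠ [] →
      (∃ b ∈ L₁ ++ L₂, b.2.1 = S M) ∨ S (L₁ ++ a :: L₂) + 1 = S M + a.2.1) :
    G0 (L₁.map (fun a => a.1) ++ (a.1 + 1) :: L₂.map (fun a => a.1)) := by
  obtain ⟨ws, w1, w2, w3, w4, -⟩ := sch_exists _ 1 h
  obtain ⟨us, vs', rfl, u1, hvs⟩ : ∃ us vs', ws = us ++ vs' ∧
      us.map List.length = L₁.map (fun a => a.1) ∧
      vs'.map List.length = (a :: L₂).map (fun a => a.1) := by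
    rw [List.map_append] at w1
    obtain ⟨us, vs', h1, h2, h3⟩ := List.map_eq_append_iff.1 w1
    exact ⟨us, vs', h1, h2, h3⟩
  obtain ⟨w, vs, rfl, v1, v2⟩ : ∃ w vs, vs' = w :: vs ∧ w.length = a.1 ∧
      vs.map List.length = L₂.map (fun a => a.1) := by
    rw [List.map_cons] at hvs
    obtain ⟨w, vs, h1, h2, h3⟩ := List.map_eq_cons_iff.1 hvs
    exact ⟨w, vs, h1, h2, h3⟩
  have hlen : us.length = L₁.length := by
    have := congrArg List.length u1
    simpa using this
  rw [List.map_append, List.map_append, List.map_cons, List.map_cons] at w2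
  obtain ⟨h1, h2⟩ := List.append_inj w2 (by simpa using hlen)
  obtain ⟨h3, h4⟩ := List.cons.inj h2
  set m := S (L₁ ++ a :: L₂) + 1 with hm
  have hsum : (L₁.map (fun a => a.1) ++ (a.1 + 1) :: L₂.map (fun a => a.1)).sum = m := by
    rw [hm]
    unfold S
    simp
    omega
  refine ⟨us ++ (m :: w) :: vs, List.Perm.of_eq (by simp [u1, v1, v2]), ?_⟩
  rw [hsum]
  have hmem : ∀ v ∈ us ++ w :: vs, ∃ v' ∈ us ++ (m :: w) :: vs, ∀ y ∈ v, y ∈ v' := by
    intro v hv
    rcases List.mem_append.1 hv with hv | hv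
    · exact ⟨v, List.mem_append_left _ hv, fun y => id⟩
    · rcases List.mem_cons.1 hv with rfl | hv
      · exact ⟨m :: v, by simp, fun y hy => List.mem_cons_of_mem _ hy⟩
      · exact ⟨v, List.mem_append_right _ (List.mem_cons_of_mem _ hv), fun y => id⟩
  have hdf : ∀ v ∈ us ++ w :: vs, ∀ d, Df v d → ∃ v' ∈ us ++ (m :: w) :: vs, Df (0 :: v') d := by
    intro v hv d hd
    rcases List.mem_append.1 hv with hv | hv
    · exact ⟨v, List.mem_append_left _ hv, hd.cons⟩
    · rcases List.mem_cons.1 hv with rfl | hv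
      · exact ⟨m :: v, by simp, hd.cons.cons⟩
      · exact ⟨v, List.mem_append_right _ (List.mem_cons_of_mem _ hv), hd.cons⟩
  refine ⟨?_, ?_⟩
  · intro y hy
    rcases Nat.eq_zero_or_pos y with h5 | h5
    · exact Or.inl h5
    · refine Or.inr ?_
      rcases Nat.eq_or_lt_of_le hy with rfl | h6
      · exact ⟨m :: w, by simp, by simp⟩
      · obtain ⟨v, hv, hy'⟩ := w3 y h5 (by omega)
        obtain ⟨v', hv', h7⟩ := hmem v hv
        exact ⟨v', hv', h7 y hy'⟩
  · intro d hd1 hd2
    rcases Nat.eq_or_lt_of_le hd2 with rfl | h5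
    · exact ⟨m :: w, by simp, Df.join_cons (b := m) rfl (by omega)⟩
    · have key : ∀ M, M <:+ (L₁ ++ a :: L₂) → M ≠ [] → S M = d →
          ∃ v ∈ us ++ (m :: w) :: vs, Df (0 :: v) d := by
        intro M hM hM0 hd
        rcases he M hM hM0 with ⟨b, hb, hbe⟩ | h6
        · have h7 : some b.2.1 ∈ (us ++ vs).map List.head? := by
            rw [List.map_append, h1, h4, ← List.map_append]
            exact List.mem_map.2 ⟨b, hb, rfl⟩
          obtain ⟨v, hv, h8⟩ := List.mem_map.1 h7
          refine ⟨v, ?_, Df.join_cons h8 (by omega)⟩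
          rw [List.mem_append] at hv ⊢
          exact hv.imp id (List.mem_cons_of_mem _)
        · exact ⟨m :: w, by simp, Df.cons (Df.join_cons h3 (Or.inr (by omega)))⟩
      by_cases h6 : d = S (L₁ ++ a :: L₂)
      · exact key _ (List.suffix_refl _) (by simp) h6.symm
      · rcases w4 d hd1 (by omega) with ⟨v, hv, h7⟩ | ⟨M, hM, h7⟩
        · exact hdf v hv d h7
        · refine key M hM ?_ h7
          rintro rfl
          rw [S_nil] at h7
          omega

/-- a scheme with one leg starting with the largest label: `α`-labelling -/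
theorem Sch.twist_a {L₁ L₂ : List (ℕ × ℕ × Bool)} {a : ℕ × ℕ × Bool} (h : Sch 1 (L₁ ++ a :: L₂))
    (he : ∀ M, M <:+ (L₁ ++ a :: L₂) → M ≠ [] →
      (∃ b ∈ L₁ ++ L₂, b.2.1 = S M) ∨ S (L₁ ++ a :: L₂) + 1 = S M + a.2.1)
    (hL : ∀ b ∈ L₁ ++ L₂, 1 + lows (L₁ ++ a :: L₂) ≤ b.2.1) (hLa : a.2.1 < 1 + lows (L₁ ++ a :: L₂)) :
    A0 (L₁.map (fun a => a.1) ++ (a.1 + 1) :: L₂.map (fun a => a.1)) := by
  obtain ⟨ws, w1, w2, w3, w4, w5⟩ := sch_exists _ 1 h
  obtain ⟨us, vs', rfl, u1, hvs⟩ : ∃ us vs', ws = us ++ vs' ∧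
      us.map List.length = L₁.map (fun a => a.1) ∧
      vs'.map List.length = (a :: L₂).map (fun a => a.1) := by
    rw [List.map_append] at w1
    obtain ⟨us, vs', h1, h2, h3⟩ := List.map_eq_append_iff.1 w1
    exact ⟨us, vs', h1, h2, h3⟩
  obtain ⟨w, vs, rfl, v1, v2⟩ : ∃ w vs, vs' = w :: vs ∧ w.length = a.1 ∧
      vs.map List.length = L₂.map (fun a => a.1) := by
    rw [List.map_cons] at hvs
    obtain ⟨w, vs, h1, h2, h3⟩ := List.map_eq_cons_iff.1 hvs
    exact ⟨w, vs, h1, h2, h3⟩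
  have hlen : us.length = L₁.length := by
    have := congrArg List.length u1
    simpa using this
  rw [List.map_append, List.map_append, List.map_cons, List.map_cons] at w2
  obtain ⟨h1, h2⟩ := List.append_inj w2 (by simpa using hlen)
  obtain ⟨h3, h4⟩ := List.cons.inj h2
  have hls := lows_le (L₁ ++ a :: L₂)
  set m := S (L₁ ++ a :: L₂) + 1 with hm
  set p := 1 + lows (L₁ ++ a :: L₂) with hp
  have hsum : (L₁.map (fun a => a.1) ++ (a.1 + 1) :: L₂.map (fun a => a.1)).sum = m := by
    rw [hm]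
    unfold S
    simp
    omega
  refine ⟨p, us ++ (m :: w) :: vs, by omega, by omega, List.Perm.of_eq (by simp [u1, v1, v2]), ?_, ?_⟩
  · rw [hsum]
    have hmem : ∀ v ∈ us ++ w :: vs, ∃ v' ∈ us ++ (m :: w) :: vs, ∀ y ∈ v, y ∈ v' := by
      intro v hv
      rcases List.mem_append.1 hv with hv | hv
      · exact ⟨v, List.mem_append_left _ hv, fun y => id⟩
      · rcases List.mem_cons.1 hv with rfl | hv
        · exact ⟨m :: v, by simp, fun y hy => List.mem_cons_of_mem _ hy⟩
        · exact ⟨v, List.mem_append_right _ (List.mem_cons_of_mem _ hv), fun y => id⟩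
    have hdf : ∀ v ∈ us ++ w :: vs, ∀ d, Df v d → ∃ v' ∈ us ++ (m :: w) :: vs, Df (0 :: v') d := by
      intro v hv d hd
      rcases List.mem_append.1 hv with hv | hv
      · exact ⟨v, List.mem_append_left _ hv, hd.cons⟩
      · rcases List.mem_cons.1 hv with rfl | hv
        · exact ⟨m :: v, by simp, hd.cons.cons⟩
        · exact ⟨v, List.mem_append_right _ (List.mem_cons_of_mem _ hv), hd.cons⟩
    refine ⟨?_, ?_⟩
    · intro y hy
      rcases Nat.eq_zero_or_pos y with h5 | h5
      · exact Or.inl h5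
      · refine Or.inr ?_
        rcases Nat.eq_or_lt_of_le hy with rfl | h6
        · exact ⟨m :: w, by simp, by simp⟩
        · obtain ⟨v, hv, hy'⟩ := w3 y h5 (by omega)
          obtain ⟨v', hv', h7⟩ := hmem v hv
          exact ⟨v', hv', h7 y hy'⟩
    · intro d hd1 hd2
      rcases Nat.eq_or_lt_of_le hd2 with rfl | h5
      · exact ⟨m :: w, by simp, Df.join_cons (b := m) rfl (by omega)⟩
      · have key : ∀ M, M <:+ (L₁ ++ a :: L₂) → M ≠ [] → S M = d →
            ∃ v ∈ us ++ (m :: w) :: vs, Df (0 :: v) d := by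
          intro M hM hM0 hd
          rcases he M hM hM0 with ⟨b, hb, hbe⟩ | h6
          · have h7 : some b.2.1 ∈ (us ++ vs).map List.head? := by
              rw [List.map_append, h1, h4, ← List.map_append]
              exact List.mem_map.2 ⟨b, hb, rfl⟩
            obtain ⟨v, hv, h8⟩ := List.mem_map.1 h7
            refine ⟨v, ?_, Df.join_cons h8 (by omega)⟩
            rw [List.mem_append] at hv ⊢
            exact hv.imp id (List.mem_cons_of_mem _)
          · exact ⟨m :: w, by simp, Df.cons (Df.join_cons h3 (Or.inr (by omega)))⟩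
        by_cases h6 : d = S (L₁ ++ a :: L₂)
        · exact key _ (List.suffix_refl _) (by simp) h6.symm
        · rcases w4 d hd1 (by omega) with ⟨v, hv, h7⟩ | ⟨M, hM, h7⟩
          · exact hdf v hv d h7
          · refine key M hM ?_ h7
            rintro rfl
            rw [S_nil] at h7
            omega
  · intro v hv
    rw [List.mem_append, List.mem_cons] at hv
    rcases hv with hv | rfl | hv
    · rw [List.isChain_cons]
      refine ⟨fun y hy => ?_, w5 v (List.mem_append_left _ hv)⟩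
      have h5 : v.head? ∈ us.map List.head? := List.mem_map_of_mem hv
      rw [h1] at h5
      obtain ⟨b, hb, h6⟩ := List.mem_map.1 h5
      have h7 := hL b (List.mem_append_left _ hb)
      rw [← h6] at hy
      have h8 : b.2.1 = y := by simpa using hy
      exact Or.inl ⟨by omega, by omega⟩
    · rw [List.isChain_cons_cons]
      refine ⟨Or.inl ⟨by omega, by omega⟩, ?_⟩
      rw [List.isChain_cons]
      refine ⟨fun y hy => ?_, w5 w (by simp)⟩
      rw [h3] at hy
      have h8 : a.2.1 = y := by simpa using hy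
      exact Or.inr ⟨by omega, by omega⟩
    · rw [List.isChain_cons]
      refine ⟨fun y hy => ?_, w5 v (List.mem_append_right _ (List.mem_cons_of_mem _ hv))⟩
      have h5 : v.head? ∈ vs.map List.head? := List.mem_map_of_mem hv
      rw [h4] at h5
      obtain ⟨b, hb, h6⟩ := List.mem_map.1 h5
      have h7 := hL b (List.mem_append_right _ hb)
      rw [← h6] at hy
      have h8 : b.2.1 = y := by simpa using hy
      exact Or.inl ⟨by omega, by omega⟩

end Pool.Agent.TH56.GT
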