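import Pool.Agent.TH56.GT.Sch

/-!
# Spiders: two and three legs
-/

set_option autoImplicit false

namespace Pool.Agent.TH56.GT

theorem suf_cons {α : Type} {a : α} {L : List α} {P : List α → Prop} :
    (∀ M, M <:+ a :: L → P M) ↔ P (a :: L) ∧ ∀ M, M <:+ L → P M := by
  constructor
  · intro h
    exact ⟨h _ (List.suffix_refl _), fun M hM => h M (hM.trans (List.suffix_cons _ _))⟩
  · rintro ⟨h1, h2⟩ M hM
    rcases List.suffix_cons_iff.1 hM with rfl | hM
    · exact h1
    · exact h2 M hM

theorem suf_nil {α : Type} {P : List α → Prop} : (∀ M, M <:+ [] → P M) ↔ P [] := by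
  simp

/-- two legs, the direct scheme -/
theorem a2_direct (a b : ℕ) (ha : 1 ≤ a) (h1 : a / 2 < (b + 1) / 2) (h2 : b = 4 * (a / 2) + 1 → a / 2 = 0) :
    A0 [a, b] := by
  have h : Sch 1 [(a, a + b, true), (b, b, true)] := by
    simp only [Sch, BC, S_cons, S_nil, lo, if_true]
    refine ⟨Or.inl ⟨trivial, ?_, ?_, ?_⟩, Or.inl ⟨trivial, ?_, ?_, ?_⟩, trivial⟩ <;> omega
  refine h.a0 ?_ ?_
  · rw [suf_cons, suf_cons, suf_nil]
    simp only [S_cons, S_nil]
    refine ⟨fun _ => ⟨(a, a + b, true), by simp, ?_⟩, fun _ => ⟨(b, b, true), by simp, ?_⟩, fun h => absurd rfl h⟩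
    · dsimp only; omega
    · dsimp only; omega
  · simp only [lows_cons, lows_nil, lo, if_true, List.forall_mem_cons]
    refine ⟨?_, ?_, by simp⟩ <;> omega

/-- two legs of lengths `a` and `4 ⌊a/2⌋ + 1` -/
theorem a2_twist (a : ℕ) (ha : 2 ≤ a) (ha3 : a ≠ 3) : A0 [a, 4 * (a / 2) + 1] := by
  have h : Sch 1 ([(a, a + 4 * (a / 2), true)] ++ (4 * (a / 2), a + 1, false) :: []) := by
    simp only [List.cons_append, List.nil_append, Sch, BC, S_cons, S_nil, lo, if_true]
    refine ⟨Or.inl ⟨trivial, ?_, ?_, ?_⟩, Or.inr ⟨trivial, ?_, ?_, ?_⟩, trivial⟩ <;> omega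
  refine h.twist_a ?_ ?_ ?_
  · simp only [List.cons_append, List.nil_append]
    rw [suf_cons, suf_cons, suf_nil]
    simp only [S_cons, S_nil]
    refine ⟨fun _ => Or.inl ⟨(a, a + 4 * (a / 2), true), by simp, ?_⟩, fun _ => Or.inr ?_, fun h => absurd rfl h⟩
    · dsimp only; omega
    · omega
  · simp only [List.cons_append, List.nil_append, lows_cons, lows_nil, lo, if_true, List.forall_mem_cons]
    refine ⟨?_, by simp⟩
    simp only [Bool.false_eq_true, if_false]
    omega
  · simp only [List.cons_append, List.nil_append, lows_cons, lows_nil, lo, if_true, Bool.false_eq_true, if_false]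
    omega

/-- explicit labellings -/
theorem cov_of {c m : ℕ} {ws : List (List ℕ)} (h1 : ∀ y ≤ m, y = c ∨ ∃ w ∈ ws, y ∈ w)
    (h2 : ∀ d ≤ m, 1 ≤ d → ∃ w ∈ ws, d ∈ List.zipWith (fun a b => a - b + (b - a)) (c :: w) w) :
    Cov c m ws := by
  refine ⟨h1, fun d hd1 hd2 => ?_⟩
  obtain ⟨w, hw, h3⟩ := h2 d hd2 hd1
  refine ⟨w, hw, ?_⟩
  rw [List.mem_iff_getElem] at h3
  obtain ⟨i, hi, h4⟩ := h3
  rw [List.length_zipWith] at hi
  have hi2 : i < w.length := by omega
  rw [List.getElem_zipWith] at h4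
  refine ⟨(c :: w)[i]'(by simp; omega), w[i], ?_, ?_⟩
  · refine ⟨(c :: w).take i, (c :: w).drop (i + 2), ?_⟩
    have h5 : (c :: w).drop i = (c :: w)[i]'(by simp; omega) :: (c :: w).drop (i + 1) :=
      List.drop_eq_getElem_cons (by simp; omega)
    have h6 : (c :: w).drop (i + 1) = (c :: w)[i + 1]'(by simp; omega) :: (c :: w).drop (i + 2) :=
      List.drop_eq_getElem_cons (by simp; omega)
    have h7 : (c :: w)[i + 1]'(by simp; omega) = w[i] := by simp
    calc (c :: w).take i ++ [(c :: w)[i]'(by simp; omega), w[i]] ++ (c :: w).drop (i + 2)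
        = (c :: w).take i ++ ((c :: w)[i]'(by simp; omega) :: (w[i] :: (c :: w).drop (i + 2))) := by simp
      _ = c :: w := by rw [← h7, ← h6, ← h5, List.take_append_drop]
  · omega

theorem chain_of {p : ℕ} {w : List ℕ} (h : w.IsChain (fun a b => (a < p ∧ p ≤ b) ∨ (b < p ∧ p ≤ a))) :
    w.IsChain (Alt p) := h

theorem a2_35 : A0 [3, 5] := by
  refine ⟨4, [[6, 2, 7], [8, 1, 4, 3, 5]], by decide, by decide, List.Perm.refl _, cov_of (by decide) (by decide), ?_⟩
  intro w hw
  refine chain_of ?_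
  revert w
  decide

theorem a2_44 : A0 [4, 4] := by
  refine ⟨5, [[8, 2, 6, 1], [7, 4, 5, 3]], by decide, by decide, List.Perm.refl _,
    cov_of (by decide) (by decide), ?_⟩
  intro w hw
  refine chain_of ?_
  revert w
  decide

theorem a2_1010 : A0 [10, 10] := by
  refine ⟨11, [[20, 8, 13, 9, 12, 10, 11, 5, 15, 4], [19, 1, 18, 2, 17, 3, 16, 7, 14, 6]], by decide, by decide,
    List.Perm.refl _, cov_of (by decide) (by decide), ?_⟩
  intro w hw
  refine chain_of ?_
  revert w
  decide

/-- two legs of the same even length -/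
theorem a2_eq (k : ℕ) (hk : 3 ≤ k) (hk5 : k ≠ 5) : A0 [2 * k, 2 * k] := by
  obtain ⟨w, w1, w2, w3, w4, w5, w6, w7⟩ : PBz 1 (4 * k) (k - 2) (k - 1) (4 * k) (3 * k + 2) := by
    have := PBz.high (l := 1) (h := 4 * k) (n := 2 * k - 3) (x := 0) (e := 4 * k) (z := 3 * k + 2)
      (by omega) (by omega) (by omega) (by omega) (Or.inr ⟨by omega, by omega⟩)
    rwa [show (2 * k - 3) / 2 = k - 2 by omega, show (2 * k - 3 + 1) / 2 = k - 1 by omega] at this
  obtain ⟨v, v1, v2, v3, v4, v5, v6, v7⟩ : PBz (k + 2) (3 * k) (k - 1) k (2 * k + 3) (3 * k - 2) := by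
    have := PBz.high (l := k + 2) (h := 3 * k) (n := 2 * k - 1) (x := k - 3) (e := 2 * k + 3) (z := 3 * k - 2)
      (by omega) (by omega) (by omega) (by omega) (Or.inr ⟨by omega, by omega⟩)
    rwa [show (2 * k - 1) / 2 = k - 1 by omega, show (2 * k - 1 + 1) / 2 = k by omega] at this
  have hw0 : w ≠ [] := by rintro rfl; simp at w2
  have hv0 : v ≠ [] := by rintro rfl; simp at v2
  refine ⟨2 * k + 1, [w ++ [k, 3 * k + 1, k + 1], v ++ [k - 1]], by omega, by simp <;> omega,
    List.Perm.of_eq ?_, ⟨?_, ?_⟩, ?_⟩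
  · simp only [List.map_cons, List.map_nil, List.length_append, w1, v1, List.length_cons, List.length_nil]
    congr 1
    · omega
    · congr 1; omega
  · intro y hy
    have hy' : y ≤ 4 * k := by simp at hy; omega
    by_cases h0 : y = 0
    · exact Or.inl h0
    · refine Or.inr ?_
      by_cases h1 : y ≤ k - 2
      · exact ⟨_, List.mem_cons_self, List.mem_append_left _ (w4 y (by omega) (by omega))⟩
      by_cases h2 : y = k - 1
      · exact ⟨_, List.mem_cons_of_mem _ List.mem_cons_self, List.mem_append_right _ (by simp [h2])⟩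
      by_cases h3 : y = k ∨ y = k + 1 ∨ y = 3 * k + 1
      · exact ⟨_, List.mem_cons_self, List.mem_append_right _ (by simp; omega)⟩
      by_cases h4 : y ≤ 2 * k
      · exact ⟨_, List.mem_cons_of_mem _ List.mem_cons_self, List.mem_append_left _ (v4 y (by omega) (by omega))⟩
      by_cases h5 : y ≤ 3 * k
      · exact ⟨_, List.mem_cons_of_mem _ List.mem_cons_self, List.mem_append_left _ (v5 y (by omega) (by omega))⟩
      · exact ⟨_, List.mem_cons_self, List.mem_append_left _ (w5 y (by omega) (by omega))⟩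
  · intro d hd1 hd2
    have hd' : d ≤ 4 * k := by simp at hd2; omega
    by_cases h1 : d = 4 * k
    · exact ⟨_, List.mem_cons_self, Df.join_cons (b := 4 * k) (by rw [List.head?_append, w2]; rfl) (by omega)⟩
    by_cases h2 : 2 * k + 3 < d
    · exact ⟨_, List.mem_cons_self, Df.cons (Df.left (w6 d (by omega) (by omega)))⟩
    by_cases h3 : d = 2 * k + 3
    · exact ⟨_, List.mem_cons_of_mem _ List.mem_cons_self,
        Df.join_cons (b := 2 * k + 3) (by rw [List.head?_append, v2]; rfl) (by omega)⟩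
    by_cases h4 : d = 2 * k + 2
    · exact ⟨_, List.mem_cons_self, Df.cons (Df.join w3 (b := k) rfl (by omega))⟩
    by_cases h5 : d = 2 * k + 1
    · exact ⟨_, List.mem_cons_self, Df.cons (Df.right (Df.join_cons (b := 3 * k + 1) rfl (by omega)))⟩
    by_cases h6 : d = 2 * k
    · exact ⟨_, List.mem_cons_self, Df.cons (Df.right (Df.cons (Df.join_cons (b := k + 1) rfl (by omega))))⟩
    by_cases h7 : d = 2 * k - 1
    · exact ⟨_, List.mem_cons_of_mem _ List.mem_cons_self, Df.cons (Df.join v3 (b := k - 1) rfl (by omega))⟩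
    · exact ⟨_, List.mem_cons_of_mem _ List.mem_cons_self, Df.cons (Df.left (v6 d (by omega) (by omega)))⟩
  · intro u hu
    have hw7 : w.IsChain (Alt (2 * k + 1)) := w7.imp fun a b hab => by unfold Alt; omega
    have hv7 : v.IsChain (Alt (2 * k + 1)) := v7.imp fun a b hab => by unfold Alt; omega
    rcases List.mem_cons.1 hu with rfl | hu
    · rw [List.isChain_cons]
      refine ⟨fun y hy => ?_, ?_⟩
      · rw [List.head?_append, w2] at hy
        have h1 : 4 * k = y := by simpa using hy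
        exact Or.inl ⟨by omega, by omega⟩
      · refine chain_join hw7 ?_ w3 (b := k) rfl (Or.inr ⟨by omega, by omega⟩)
        rw [List.isChain_cons_cons, List.isChain_cons_cons]
        exact ⟨Or.inl ⟨by omega, by omega⟩, Or.inr ⟨by omega, by omega⟩, List.isChain_singleton _⟩
    · have hu : u = v ++ [k - 1] := by simpa using hu
      subst hu
      rw [List.isChain_cons]
      refine ⟨fun y hy => ?_, ?_⟩
      · rw [List.head?_append, v2] at hy
        have h1 : 2 * k + 3 = y := by simpa using hy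
        exact Or.inl ⟨by omega, by omega⟩
      · exact chain_join hv7 (List.isChain_singleton _) v3 (b := k - 1) rfl (Or.inr ⟨by omega, by omega⟩)

/-- **all pairs of legs** other than `(2, 2)` have an `α`-labelling with hub label `0` -/
theorem a2 (a b : ℕ) (ha : 1 ≤ a) (hab : a ≤ b) (h22 : b ≠ 2 ∨ a ≠ 2) : A0 [a, b] := by
  by_cases h1 : a / 2 < (b + 1) / 2
  · by_cases h2 : b = 4 * (a / 2) + 1
    · by_cases h3 : a / 2 = 0
      · exact a2_direct a b ha h1 (fun _ => h3)
      · by_cases h4 : a = 3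
        · subst h4
          have : b = 5 := by omega
          subst this
          exact a2_35
        · rw [h2]
          exact a2_twist a (by omega) h4
    · exact a2_direct a b ha h1 (fun h => absurd h h2)
  · obtain ⟨k, hk⟩ : ∃ k, a = 2 * k := ⟨a / 2, by omega⟩
    have hb : b = 2 * k := by omega
    subst hk hb
    by_cases h3 : k = 2
    · subst h3; exact a2_44
    · by_cases h4 : k = 5
      · subst h4; exact a2_1010
      · exact a2_eq k (by omega) h4

theorem g2 (a b : ℕ) (ha : 1 ≤ a) (hab : a ≤ b) : G0 [a, b] := by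
  by_cases h : b ≠ 2 ∨ a ≠ 2
  · exact (a2 a b ha hab h).g0
  · have h1 : b = 2 := by omega
    have h2 : a = 2 := by omega
    subst h1 h2
    exact ⟨[[4, 1], [2, 3]], List.Perm.refl _, cov_of (by decide) (by decide)⟩

theorem g1 (a : ℕ) (ha : 1 ≤ a) : G0 [a] := by
  have h : Sch 1 [(a, a, true)] := by
    simp only [Sch, BC, S_nil]
    refine ⟨Or.inl ⟨trivial, ?_, ?_, ?_⟩, trivial⟩ <;> omega
  refine h.g0 ?_
  rw [suf_cons, suf_nil]
  simp only [S_cons, S_nil]
  exact ⟨fun _ => ⟨(a, a, true), by simp, by dsimp only; omega⟩, fun h => absurd rfl h⟩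

theorem g0_nil : G0 [] := ⟨[], List.Perm.refl _, fun y hy => Or.inl (by simpa using hy), fun d h1 h2 => by
  simp at h2; omega⟩

end Pool.Agent.TH56.GT
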