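import Pool.Agent.TH56.GT.Small

/-!
# Spiders: three legs
-/

set_option autoImplicit false

namespace Pool.Agent.TH56.GT

/-- the natural scheme, last leg at a high label -/
theorem g3_rh (x y z : ℕ) (hx : 1 ≤ x) (h1 : x / 2 < (y + 1) / 2) (h2 : y = 4 * (x / 2) + 1 → x / 2 = 0)
    (h3 : x / 2 + y / 2 < (z + 1) / 2) (h4 : z = 4 * (x / 2 + y / 2) + 1 → x / 2 + y / 2 = 0) :
    G0 [x, y, z] := by
  have h : Sch 1 [(x, x + y + z, true), (y, y + z, true), (z, z, true)] := by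
    simp only [Sch, BC, S_cons, S_nil, lo, if_true]
    refine ⟨Or.inl ⟨trivial, ?_, ?_, ?_⟩, Or.inl ⟨trivial, ?_, ?_, ?_⟩, Or.inl ⟨trivial, ?_, ?_, ?_⟩, trivial⟩ <;>
      omega
  refine h.g0 ?_
  rw [suf_cons, suf_cons, suf_cons, suf_nil]
  simp only [S_cons, S_nil]
  refine ⟨fun _ => ⟨(x, x + y + z, true), by simp, ?_⟩, fun _ => ⟨(y, y + z, true), by simp, ?_⟩,
    fun _ => ⟨(z, z, true), by simp, ?_⟩, fun h => absurd rfl h⟩ <;> dsimp only <;> omega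

/-- the natural scheme, last leg at a low label -/
theorem g3_rl (x y z : ℕ) (hx : 1 ≤ x) (h1 : x / 2 < (y + 1) / 2) (h2 : y = 4 * (x / 2) + 1 → x / 2 = 0)
    (h3 : x / 2 + y / 2 < z) (h5 : z ≤ x / 2 + y / 2 + (z + 1) / 2)
    (h4 : z = 4 * (z - 1 - (x / 2 + y / 2)) + 1 → z = x / 2 + y / 2 + 1) :
    G0 [x, y, z] := by
  have h : Sch 1 [(x, x + y + z, true), (y, y + z, true), (z, z, false)] := by
    simp only [Sch, BC, S_cons, S_nil, lo, if_true]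
    refine ⟨Or.inl ⟨trivial, ?_, ?_, ?_⟩, Or.inl ⟨trivial, ?_, ?_, ?_⟩, Or.inr ⟨trivial, ?_, ?_, ?_⟩, trivial⟩ <;>
      omega
  refine h.g0 ?_
  rw [suf_cons, suf_cons, suf_cons, suf_nil]
  simp only [S_cons, S_nil]
  refine ⟨fun _ => ⟨(x, x + y + z, true), by simp, ?_⟩, fun _ => ⟨(y, y + z, true), by simp, ?_⟩,
    fun _ => ⟨(z, z, false), by simp, ?_⟩, fun h => absurd rfl h⟩ <;> dsimp only <;> omega

/-- the twisted scheme, third leg: low -/
theorem g3_tl (x y z : ℕ) (hx : 1 ≤ x) (h1 : x / 2 < (y + 1) / 2) (h2 : y = 4 * (x / 2) + 1 → x / 2 = 0)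
    (h3 : (x + 1) / 2 + (y + 1) / 2 < (z + 1) / 2) (h4 : z = 4 * ((x + 1) / 2 + (y + 1) / 2) + 1 → x = 0) :
    G0 [x, y, z + 1] := by
  have h : Sch 1 ([(x, x + y + z, true), (y, y + z, true)] ++ (z, x + y + 1, false) :: []) := by
    simp only [List.cons_append, List.nil_append, Sch, BC, S_cons, S_nil, lo, if_true]
    refine ⟨Or.inl ⟨trivial, ?_, ?_, ?_⟩, Or.inl ⟨trivial, ?_, ?_, ?_⟩, Or.inr ⟨trivial, ?_, ?_, ?_⟩, trivial⟩ <;>
      omega
  refine h.twist ?_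
  simp only [List.cons_append, List.nil_append]
  rw [suf_cons, suf_cons, suf_cons, suf_nil]
  simp only [S_cons, S_nil]
  refine ⟨fun _ => Or.inl ⟨(x, x + y + z, true), by simp, ?_⟩, fun _ => Or.inl ⟨(y, y + z, true), by simp, ?_⟩,
    fun _ => Or.inr ?_, fun h => absurd rfl h⟩ <;> (try dsimp only) <;> omega

/-- the twisted scheme, third leg: high -/
theorem g3_th (x y z : ℕ) (hx : 1 ≤ x) (h1 : x / 2 < (y + 1) / 2) (h2 : y = 4 * (x / 2) + 1 → x / 2 = 0)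
    (h3 : (x + 1) / 2 + (y + 1) / 2 + 1 ≤ z) (h5 : z < (x + 1) / 2 + (y + 1) / 2 + 1 + (z + 1) / 2)
    (h4 : z = 4 * (z - 1 - ((x + 1) / 2 + (y + 1) / 2)) + 1 → z = (x + 1) / 2 + (y + 1) / 2 + 1) :
    G0 [x, y, z + 1] := by
  have h : Sch 1 ([(x, x + y + z, true), (y, y + z, true)] ++ (z, x + y + 1, true) :: []) := by
    simp only [List.cons_append, List.nil_append, Sch, BC, S_cons, S_nil, lo, if_true]
    refine ⟨Or.inl ⟨trivial, ?_, ?_, ?_⟩, Or.inl ⟨trivial, ?_, ?_, ?_⟩, Or.inl ⟨trivial, ?_, ?_, ?_⟩, trivial⟩ <;>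
      omega
  refine h.twist ?_
  simp only [List.cons_append, List.nil_append]
  rw [suf_cons, suf_cons, suf_cons, suf_nil]
  simp only [S_cons, S_nil]
  refine ⟨fun _ => Or.inl ⟨(x, x + y + z, true), by simp, ?_⟩, fun _ => Or.inl ⟨(y, y + z, true), by simp, ?_⟩,
    fun _ => Or.inr ?_, fun h => absurd rfl h⟩ <;> (try dsimp only) <;> omega

/-- three legs of the same even length -/
theorem g3_eq (k : ℕ) (hk : 1 ≤ k) : G0 [2 * k, 2 * k, 2 * k] := by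
  have h : Sch 1 [(2 * k, 6 * k, true), (2 * k, 2 * k, false), (2 * k, 4 * k, true)] := by
    simp only [Sch, BC, S_cons, S_nil, lo, if_true, Bool.false_eq_true, if_false]
    refine ⟨Or.inl ⟨trivial, ?_, ?_, ?_⟩, Or.inr ⟨trivial, ?_, ?_, ?_⟩, Or.inl ⟨trivial, ?_, ?_, ?_⟩, trivial⟩ <;>
      omega
  refine h.g0 ?_
  rw [suf_cons, suf_cons, suf_cons, suf_nil]
  simp only [S_cons, S_nil]
  refine ⟨fun _ => ⟨(2 * k, 6 * k, true), by simp, ?_⟩, fun _ => ⟨(2 * k, 4 * k, true), by simp, ?_⟩,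
    fun _ => ⟨(2 * k, 2 * k, false), by simp, ?_⟩, fun h => absurd rfl h⟩ <;> dsimp only <;> omega

/-- `(x, y)` is a good pair -/
def Gp (x y : ℕ) : Prop := x / 2 < (y + 1) / 2 ∧ (y = 4 * (x / 2) + 1 → x / 2 = 0)

theorem g3 (x y z : ℕ) (hx : 2 ≤ x) (hxy : x ≤ y) (hyz : y ≤ z) (h : Gp x y) : G0 [x, y, z] := by
  obtain ⟨h1, h2⟩ := h
  by_cases h3 : x / 2 + y / 2 < (z + 1) / 2
  · by_cases h4 : z = 4 * (x / 2 + y / 2) + 1
    · by_cases h5 : (x + 1) / 2 + (y + 1) / 2 < z / 2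
      · have := g3_tl x y (z - 1) (by omega) h1 h2 (by omega) (by omega)
        rwa [show z - 1 + 1 = z by omega] at this
      · obtain ⟨rfl, rfl, rfl⟩ : x = 3 ∧ y = 3 ∧ z = 9 := by omega
        exact ⟨[[15, 10, 8], [14, 7, 4], [13, 1, 12, 2, 11, 3, 9, 5, 6]], List.Perm.refl _,
          cov_of (by decide) (by decide)⟩
    · exact g3_rh x y z (by omega) h1 h2 h3 (fun h => absurd h h4)
  · by_cases h4 : z = 4 * (z - 1 - (x / 2 + y / 2)) + 1
    · by_cases h6 : (x + 1) / 2 + (y + 1) / 2 + 2 ≤ z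
      · have := g3_th x y (z - 1) (by omega) h1 h2 (by omega) (by omega) (by omega)
        rwa [show z - 1 + 1 = z by omega] at this
      · by_cases h7 : x = 3
        · obtain ⟨rfl, rfl, rfl⟩ : x = 3 ∧ y = 4 ∧ z = 5 := by omega
          exact ⟨[[12, 6, 5], [11, 8, 3, 7], [10, 1, 9, 2, 4]], List.Perm.refl _,
            cov_of (by decide) (by decide)⟩
        · obtain ⟨rfl, rfl, rfl⟩ : x = 7 ∧ y = 7 ∧ z = 9 := by omega
          exact ⟨[[23, 16, 5, 15, 6, 14, 9], [22, 10, 7, 13, 11, 12, 8], [21, 1, 20, 2, 19, 3, 18, 4, 17]],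
            List.Perm.refl _, cov_of (by decide) (by decide)⟩
    · exact g3_rl x y z (by omega) h1 h2 (by omega) (by omega) (fun h => absurd h h4)

end Pool.Agent.TH56.GT
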